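import Mathlib

/-!
# (TAM) and separability of first countable ccc Čech-complete spaces: statements of the tasks
-/

open Set Topology Filter

universe u

namespace H970R2.TAM

/-- every finite subfamily has nonempty intersection -/
def Centered {X : Type u} (η : Set (Set X)) : Prop :=
  ∀ s : Finset (Set X), (↑s : Set (Set X)) ⊆ η → (⋂₀ (↑s : Set (Set X))).Nonempty

/-- `c(X) = ℵ₀` -/
def CountableCellularity (X : Type u) [TopologicalSpace X] : Prop :=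
  ∀ 𝒰 : Set (Set X), (∀ U ∈ 𝒰, IsOpen U ∧ U.Nonempty) → 𝒰.PairwiseDisjoint id → 𝒰.Countable

/-- the statement (TAM) -/
def TAM : Prop :=
  ∀ (X : Type u) [TopologicalSpace X] [T2Space X], CountableCellularity X →
    ∀ ξ : Set (Set X), (∀ U ∈ ξ, IsOpen U ∧ U.Nonempty) → ¬ ξ.Countable →
      ∃ η ⊆ ξ, ¬ η.Countable ∧ Centered η

/-- consequence of (TAM) for hereditary families `R` of finite sets -/
def Hom (W : Type u) : Prop :=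
  ∀ R : Finset W → Prop, (∀ F G : Finset W, G ⊆ F → R F → R G) → (∀ w, R {w}) →
    (∀ 𝒥 : Set (Finset W), (∀ F ∈ 𝒥, R F) → ¬ 𝒥.Countable →
      ∃ F ∈ 𝒥, ∃ G ∈ 𝒥, F ≠ G ∧ ∃ H, R H ∧ F ⊆ H ∧ G ⊆ H) →
    ∀ S : Set W, ¬ S.Countable → ∃ I ⊆ S, ¬ I.Countable ∧ ∀ F : Finset W, (↑F : Set W) ⊆ I → R F

/-- every uncountable indexed family of nonempty open sets has an uncountable centered subfamily -/
def Prec (K : Type u) [TopologicalSpace K] : Prop :=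
  ∀ (ι : Type u) (S : Set ι) (V : ι → Set K), ¬ S.Countable →
    (∀ i ∈ S, IsOpen (V i) ∧ (V i).Nonempty) →
    ∃ S' ⊆ S, ¬ S'.Countable ∧ ∀ F : Finset ι, (↑F : Set ι) ⊆ S' → (⋂ i ∈ F, V i).Nonempty

/-- domination of `W`-indexed families of functions -/
def Dom (W : Type u) : Prop :=
  ∀ f : W → ℕ → ℕ, ∃ g : ℕ → ℕ, ∀ w, ∃ N, ∀ n ≥ N, f w n ≤ g n

/-- pseudo-intersections of `W`-indexed filter bases -/
def PInt (W : Type u) : Prop :=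
  ∀ A : W → Set ℕ, (∀ F : Finset W, (⋂ w ∈ F, A w).Infinite) →
    ∃ B : Set ℕ, B.Infinite ∧ ∀ w, (B \ A w).Finite

/-- `W` looks like `ω₁` -/
def Om (W : Type u) [LinearOrder W] : Prop :=
  (∀ w : W, (Set.Iio w).Countable) ∧ ¬ (Set.univ : Set W).Countable

/-- `e β` enumerates the predecessors of `β` injectively -/
def Enum {W : Type u} [LinearOrder W] (e : W → W → ℕ) : Prop :=
  ∀ β α α' : W, α < β → α' < β → e β α = e β α' → α = α'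

/-! ### delta system lemma -/
/-- DS -/
def S_DS : Prop := ∀ (T I : Type u) (F : I → Finset T) (J : Set I), ¬ J.Countable →
  ∃ (J' : Set I) (R : Finset T), J' ⊆ J ∧ ¬ J'.Countable ∧
    (∀ i ∈ J', R ⊆ F i) ∧ ∀ i ∈ J', ∀ j ∈ J', i ≠ j → ∀ t ∈ F i, t ∈ F j → t ∈ R

/-- HOM -/
def S_HOM : Prop := S_DS.{u} → TAM.{u} → ∀ W : Type u, Hom W

/-- PREC -/
def S_PREC : Prop := TAM.{u} → ∀ (K : Type u) [TopologicalSpace K] [T2Space K],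
  CountableCellularity K → Prec K

/-- ENUM -/
def S_ENUM : Prop := ∀ (W : Type u) [LinearOrder W], Om W → ∃ e : W → W → ℕ, Enum e

/-- DOM -/
def S_DOM : Prop := ∀ (W : Type u) [LinearOrder W], Om W → (∃ e : W → W → ℕ, Enum e) →
  Hom W → Dom W

/-- DOMF: domination for finite subsets -/
def S_DOMF : Prop := ∀ (W : Type u), Infinite W → Dom W → Dom (Finset W)

/-- DOMC: domination with countable sets of arguments -/
def S_DOMC : Prop := ∀ (W : Type u), Dom W → ∀ f : W → (ℕ × List ℕ) → ℕ,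
  ∃ g : (ℕ × List ℕ) → ℕ, ∀ w, {s | g s < f w s}.Finite

/-- GG: the interval function `g` -/
def S_GG : Prop := ∀ (W : Type u) [LinearOrder W], Dom (Finset W) → ∀ e : W → W → ℕ, Enum e →
  ∀ A : W → Set ℕ, (∀ F : Finset W, (⋂ w ∈ F, A w).Infinite) →
  ∃ g : ℕ → ℕ, StrictMono g ∧ ∀ F : Finset W, ∃ N, ∀ n ≥ N, ∃ y, g n ≤ y ∧ y < g (n + 1) ∧
    ∀ β ∈ F, ∀ ξ < β, e β ξ ≤ n → y ∈ A ξ

/-- the block of `β` at level `n` (always nonempty) -/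
def Blk {W : Type u} [LinearOrder W] (A : W → Set ℕ) (e : W → W → ℕ) (g : ℕ → ℕ) (β : W) (n : ℕ) :
    Set ℕ :=
  {y | g n ≤ y ∧ y < g (n + 1) ∧
    ((∃ z, g n ≤ z ∧ z < g (n + 1) ∧ ∀ ξ < β, e β ξ ≤ n → z ∈ A ξ) → ∀ ξ < β, e β ξ ≤ n → y ∈ A ξ)}

/-- the hereditary family with width two -/
def R2 {W : Type u} [LinearOrder W] (A : W → Set ℕ) (e : W → W → ℕ) (g : ℕ → ℕ) (F : Finset W) :
    Prop :=
  ∀ n, ∃ c : W → Finset ℕ,
    (∀ β ∈ F, (c β).card ≤ 2 ∧ (∀ y ∈ c β, g n ≤ y ∧ y < g (n + 1)) ∧ ∃ y ∈ c β, y ∈ Blk A e g β n) ∧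
    ∀ α ∈ F, ∀ β ∈ F, α < β → e β α ≤ n → c α = c β

/-- W2C: the family `R2` is ccc -/
def S_W2C : Prop := S_DS.{u} → ∀ (W : Type u) [LinearOrder W], Om W → ∀ e : W → W → ℕ, Enum e →
  ∀ A : W → Set ℕ, ∀ g : ℕ → ℕ, StrictMono g →
  (∀ F : Finset W, ∃ N, ∀ n ≥ N, ∃ y, g n ≤ y ∧ y < g (n + 1) ∧
    ∀ β ∈ F, ∀ ξ < β, e β ξ ≤ n → y ∈ A ξ) →
  ∀ 𝒥 : Set (Finset W), (∀ F ∈ 𝒥, R2 A e g F) → ¬ 𝒥.Countable →
      ∃ F ∈ 𝒥, ∃ G ∈ 𝒥, F ≠ G ∧ ∃ H, R2 A e g H ∧ F ⊆ H ∧ G ⊆ H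

/-- W2E: from an uncountable homogeneous set to a hitting sequence of width two -/
def S_W2E : Prop := ∀ (W : Type u) [LinearOrder W], Om W → ∀ e : W → W → ℕ, Enum e →
  ∀ A : W → Set ℕ, ∀ g : ℕ → ℕ, StrictMono g →
  (∀ F : Finset W, ∃ N, ∀ n ≥ N, ∃ y, g n ≤ y ∧ y < g (n + 1) ∧
    ∀ β ∈ F, ∀ ξ < β, e β ξ ≤ n → y ∈ A ξ) →
  ∀ I : Set W, ¬ I.Countable → (∀ F : Finset W, (↑F : Set W) ⊆ I → R2 A e g F) →
  ∃ c : ℕ → Finset ℕ, (∀ n, (c n).card ≤ 2 ∧ ∀ y ∈ c n, g n ≤ y ∧ y < g (n + 1)) ∧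
    ∀ H : Finset W, ∃ N, ∀ n ≥ N, ∃ y ∈ c n, ∀ ξ ∈ H, y ∈ A ξ

/-- FIN2: from width two to a pseudo-intersection -/
def S_FIN2 : Prop := ∀ (W : Type u) (A : W → Set ℕ) (g : ℕ → ℕ), StrictMono g →
  ∀ c : ℕ → Finset ℕ, (∀ n, (c n).card ≤ 2 ∧ ∀ y ∈ c n, g n ≤ y ∧ y < g (n + 1)) →
    (∀ H : Finset W, ∃ N, ∀ n ≥ N, ∃ y ∈ c n, ∀ ξ ∈ H, y ∈ A ξ) →
    ∃ B : Set ℕ, B.Infinite ∧ ∀ w, (B \ A w).Finite

/-- PIA: assembly of `PInt` -/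
def S_PIA : Prop := S_DS.{u} → S_ENUM.{u} → S_DOMF.{u} → S_GG.{u} → S_W2C.{u} → S_W2E.{u} →
  S_FIN2.{u} → ∀ (W : Type u) [LinearOrder W], Om W → Hom W → Dom W → PInt W

/-- the hereditary family for the countable set of points -/
def RC {W : Type u} [LinearOrder W] {K : Type u} (e : W → W → ℕ) (p : W → Set K) (F : Finset W) :
    Prop :=
  ∀ i : ℕ, ∃ c : W → ℕ, (∀ β ∈ F, c β ≤ i) ∧ ∀ t ≤ i,
    (⋂ β ∈ F, ⋂ ξ, ⋂ (_ : ξ < β ∧ e β ξ = i ∧ c β = t), p ξ).Nonempty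

/-- SCC: the family `RC` is ccc -/
def S_SCC : Prop := ∀ (W : Type u) [LinearOrder W], Om W → ∀ e : W → W → ℕ, Enum e →
  ∀ (K : Type u) [TopologicalSpace K], Prec K → ∀ p : W → Set K,
  (∀ w, IsOpen (p w) ∧ (p w).Nonempty) →
  ∀ 𝒥 : Set (Finset W), (∀ F ∈ 𝒥, RC e p F) → ¬ 𝒥.Countable →
      ∃ F ∈ 𝒥, ∃ G ∈ 𝒥, F ≠ G ∧ ∃ H, RC e p H ∧ F ⊆ H ∧ G ⊆ H

/-- SCE: from an uncountable homogeneous set to countably many points -/
def S_SCE : Prop := ∀ (W : Type u) [LinearOrder W], Om W → ∀ e : W → W → ℕ, Enum e →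
  ∀ (K : Type u) [TopologicalSpace K] [CompactSpace K], ∀ p : W → Set K,
  (∀ w, IsOpen (p w) ∧ (p w).Nonempty) →
  ∀ I : Set W, ¬ I.Countable → (∀ F : Finset W, (↑F : Set W) ⊆ I → RC e p F) →
  ∃ c : ℕ → K, ∀ w, ∃ k, c k ∈ closure (p w)

/-- SCA: assembly -/
def S_SCA : Prop := S_ENUM.{u} → S_SCC.{u} → S_SCE.{u} → ∀ (W : Type u) [LinearOrder W], Om W →
  Hom W → ∀ (K : Type u) [TopologicalSpace K] [CompactSpace K], Prec K → ∀ p : W → Set K,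
  (∀ w, IsOpen (p w) ∧ (p w).Nonempty) → ∃ c : ℕ → K, ∀ w, ∃ k, c k ∈ closure (p w)

/-- the closure property (i*) of the family `p` -/
def IStar {W K : Type u} [TopologicalSpace K] (p : W → Set K) (O : ℕ → Set K) : Prop :=
  ∀ F : Finset W, (⋂ w ∈ F, p w).Nonempty → ∀ n, ∃ w', closure (p w') ⊆ (⋂ w ∈ F, p w) ∩ O n

/-- L1: successors -/
def S_L1 : Prop := ∀ (W : Type u), PInt W → ∀ (K : Type u) [TopologicalSpace K] (p : W → Set K)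
  (O : ℕ → Set K), (∀ w, IsOpen (p w) ∧ (p w).Nonempty) → Antitone O → IStar p O →
  ∀ c : ℕ → K, (∀ w, ∃ k, c k ∈ p w) →
  ∃ nxt : ℕ → ℕ → ℕ → ℕ, (∀ k n t, ∃ w', c (nxt k n t) ∈ p w' ∧ closure (p w') ⊆ O n) ∧
    ∀ w k n, c k ∈ p w → ∃ T, ∀ t ≥ T, c (nxt k n t) ∈ p w

/-- L2: paths -/
def S_L2 : Prop := S_DOMC.{u} → ∀ (W : Type u), Dom W → ∀ (K : Type u) [TopologicalSpace K]
  [CompactSpace K] (p : W → Set K) (O : ℕ → Set K), (∀ w, IsOpen (p w) ∧ (p w).Nonempty) →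
  Antitone O → IStar p O → ∀ c : ℕ → K, (∀ w, ∃ k, c k ∈ p w) →
  ∀ nxt : ℕ → ℕ → ℕ → ℕ, (∀ k n t, ∃ w', c (nxt k n t) ∈ p w' ∧ closure (p w') ⊆ O n) →
    (∀ w k n, c k ∈ p w → ∃ T, ∀ t ≥ T, c (nxt k n t) ∈ p w) →
  ∃ D : Set K, D.Countable ∧ D ⊆ ⋂ n, O n ∧ ∀ w, (D ∩ p w).Nonempty

/-- AT: the abstract theorem -/
def ATst : Prop := ∀ (W : Type u) [LinearOrder W], Om W → ∀ (K : Type u) [TopologicalSpace K]
  [CompactSpace K] [T2Space K], CountableCellularity K → ∀ (p : W → Set K) (O : ℕ → Set K),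
  (∀ w, IsOpen (p w) ∧ (p w).Nonempty) → Antitone O → IStar p O →
  ∃ D : Set K, D.Countable ∧ D ⊆ ⋂ n, O n ∧ ∀ w, (D ∩ p w).Nonempty

/-- ATA: assembly of the abstract theorem -/
def S_ATA : Prop := S_DS.{u} → S_HOM.{u} → S_PREC.{u} → S_ENUM.{u} → S_DOM.{u} → S_DOMF.{u} →
  S_DOMC.{u} → S_GG.{u} → S_W2C.{u} → S_W2E.{u} → S_FIN2.{u} → S_PIA.{u} → S_SCC.{u} →
  S_SCE.{u} → S_SCA.{u} → S_L1.{u} → S_L2.{u} → TAM.{u} → ATst.{u}

/-- NB: neighbourhood bases in the Stone-Čech compactification -/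
def S_NB : Prop := ∀ (X : Type u) [TopologicalSpace X] [T35Space X] [FirstCountableTopology X],
  ∃ U : X → ℕ → Set (StoneCech X), (∀ x n, IsOpen (U x n) ∧ stoneCechUnit x ∈ U x n) ∧
    ∀ x (V : Set (StoneCech X)), IsOpen V → stoneCechUnit x ∈ V → ∃ n, closure (U x n) ⊆ V

/-- CHAIN: closing off -/
def S_CHAIN : Prop := ∀ (X : Type u) [TopologicalSpace X], ¬ TopologicalSpace.SeparableSpace X →
  ∀ (W : Type u) [LinearOrder W] [WellFoundedLT W], Om W → ∀ φ : Finset (X × ℕ) → X,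
  ∃ Zs : W → Set X, (∀ w, (Zs w).Countable) ∧ Monotone Zs ∧
    (∀ F : Finset (X × ℕ), (∀ q ∈ F, q.1 ∈ ⋃ w, Zs w) → φ F ∈ ⋃ w, Zs w) ∧
    ∀ w, ∃ z ∈ ⋃ w', Zs w', z ∉ closure (Zs w)

/-- CK: the closure of a closed-off set is ccc -/
def S_CK : Prop := ∀ (X K : Type u) [TopologicalSpace X] [TopologicalSpace K] (i : X → K),
  Continuous i → DenseRange i → CountableCellularity X →
  ∀ U : X → ℕ → Set K, (∀ x n, IsOpen (U x n) ∧ i x ∈ U x n) →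
  (∀ x (V : Set K), IsOpen V → i x ∈ V → ∃ n, closure (U x n) ⊆ V) →
  ∀ Z : Set X, (∀ F : Finset (X × ℕ), (∀ q ∈ F, q.1 ∈ Z) → (⋂ q ∈ F, U q.1 q.2).Nonempty →
    ∃ x ∈ Z, i x ∈ ⋂ q ∈ F, U q.1 q.2) →
  CountableCellularity (closure (i '' Z))

/-- IS: the family on the closure -/
def S_IS : Prop := ∀ (X K : Type u) [TopologicalSpace X] [TopologicalSpace K] (i : X → K),
  ∀ U : X → ℕ → Set K, (∀ x n, IsOpen (U x n) ∧ i x ∈ U x n) →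
  (∀ x (V : Set K), IsOpen V → i x ∈ V → ∃ n, closure (U x n) ⊆ V) →
  ∀ O : ℕ → Set K, (∀ n, IsOpen (O n)) → (∀ n x, i x ∈ O n) → ∀ Z : Set X, ∀ (W : Type u)
  (ψ : W → X × ℕ), (∀ z ∈ Z, ∀ n, ∃ w, ψ w = (z, n)) → (∀ w, (ψ w).1 ∈ Z) → Nonempty W →
  IStar (fun w => (Subtype.val ⁻¹' (U (ψ w).1 (ψ w).2) : Set (closure (i '' Z))))
    (fun n => (Subtype.val ⁻¹' (O n) : Set (closure (i '' Z))))

/-- FC: the final contradiction -/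
def S_FC : Prop := ∀ (X K : Type u) [TopologicalSpace X] [TopologicalSpace K]
  [FirstCountableTopology X] (i : X → K), IsInducing i → Function.Injective i →
  ∀ U : X → ℕ → Set K, (∀ x n, IsOpen (U x n) ∧ i x ∈ U x n) →
  (∀ x (V : Set K), IsOpen V → i x ∈ V → ∃ n, closure (U x n) ⊆ V) →
  ∀ (W : Type u) [LinearOrder W], Om W → ∀ Zs : W → Set X, (∀ w, (Zs w).Countable) →
  Monotone Zs → (∀ w, ∃ z ∈ ⋃ w', Zs w', z ∉ closure (Zs w)) →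
  ∀ D : Set K, D.Countable → D ⊆ range i → D ⊆ closure (i '' ⋃ w, Zs w) →
  (∀ z ∈ ⋃ w, Zs w, ∀ n, (D ∩ U z n).Nonempty) → False

/-- the result -/
def S_FINAL : Prop := TAM.{u} → ∀ (X : Type u) [TopologicalSpace X] [T35Space X]
  [FirstCountableTopology X], IsGδ (range (stoneCechUnit : X → StoneCech X)) →
  CountableCellularity X → TopologicalSpace.SeparableSpace X

/-- TOP: topological assembly -/
def S_TOP : Prop := ATst.{u} → S_NB.{u} → S_CHAIN.{u} → S_CK.{u} → S_IS.{u} → S_FC.{u} →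
  ∀ (X : Type u) [TopologicalSpace X] [T35Space X]
  [FirstCountableTopology X], IsGδ (range (stoneCechUnit : X → StoneCech X)) →
  CountableCellularity X → TopologicalSpace.SeparableSpace X

end H970R2.TAM
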