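import Pool.Agent.H970R2.TAM.Defs

open Set Topology Filter

universe u

namespace H970R2.TAM

theorem t_ATA : S_ATA.{u} := by
  intro hDS hHOM hPREC hENUM hDOM hDOMF hDOMC hGG hW2C hW2E hFIN2 hPIA hSCC hSCE hSCA hL1 hL2 hT
  intro W _ hOm K _ _ _ hK p O hp hO hI
  have hom := hHOM hDS hT W
  have prec := hPREC hT K hK
  have dom := hDOM W hOm (hENUM W hOm) hom
  have pint := hPIA hDS hENUM hDOMF hGG hW2C hW2E hFIN2 W hOm hom dom
  obtain ⟨c, hc⟩ := hSCA hENUM hSCC hSCE W hOm hom K prec p hp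
  have hc' : ∀ w, ∃ k, c k ∈ p w := by
    intro w
    have h1 : (⋂ w' ∈ ({w} : Finset W), p w').Nonempty := by
      simpa using (hp w).2
    obtain ⟨w', hw'⟩ := hI {w} h1 0
    obtain ⟨k, hk⟩ := hc w'
    refine ⟨k, ?_⟩
    have h2 := (hw' hk).1
    simpa using h2
  obtain ⟨nxt, h1, h2⟩ := hL1 W pint K p O hp hO hI c hc'
  exact hL2 hDOMC W dom K p O hp hO hI c hc' nxt h1 h2

end H970R2.TAM
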