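import Pool.Agent.H970R2.TAM.Defs

open Set Topology Filter

universe u

namespace H970R2.TAM

namespace CHAINw

variable {X : Type u}

/-- one closing-off step -/
def step (φ : Finset (X × ℕ) → X) (S : Set X) : Set X :=
  S ∪ φ '' {F | ∀ q ∈ F, q.1 ∈ S}

/-- the closure under `φ` -/
def Cl (φ : Finset (X × ℕ) → X) (S : Set X) : Set X := ⋃ k : ℕ, (step φ)^[k] S

theorem step_countable (φ : Finset (X × ℕ) → X) {S : Set X} (hS : S.Countable) :
    (step φ S).Countable := by
  refine hS.union (Countable.image ?_ φ)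
  have h1 : (S ×ˢ (univ : Set ℕ)).Countable := hS.prod (Set.countable_univ)
  have h2 := Set.countable_setOf_finite_subset h1
  have h3 : ((fun F : Finset (X × ℕ) => (F : Set (X × ℕ))) ⁻¹'
      {t | t.Finite ∧ t ⊆ S ×ˢ (univ : Set ℕ)}).Countable :=
    h2.preimage_of_injOn (Finset.coe_injective.injOn)
  refine h3.mono ?_
  intro F hF
  refine ⟨F.finite_toSet, ?_⟩
  intro q hq
  exact ⟨hF q hq, mem_univ _⟩

theorem iter_countable (φ : Finset (X × ℕ) → X) {S : Set X} (hS : S.Countable) (k : ℕ) :
    ((step φ)^[k] S).Countable := by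
  induction k with
  | zero => exact hS
  | succ k ih =>
    rw [Function.iterate_succ_apply']
    exact step_countable φ ih

theorem Cl_countable (φ : Finset (X × ℕ) → X) {S : Set X} (hS : S.Countable) :
    (Cl φ S).Countable := countable_iUnion fun k => iter_countable φ hS k

theorem step_mono (φ : Finset (X × ℕ) → X) {S T : Set X} (h : S ⊆ T) :
    step φ S ⊆ step φ T := by
  refine union_subset_union h (image_mono ?_)
  intro F hF q hq
  exact h (hF q hq)

theorem iter_mono (φ : Finset (X × ℕ) → X) {S T : Set X} (h : S ⊆ T) (k : ℕ) :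
    (step φ)^[k] S ⊆ (step φ)^[k] T := by
  induction k with
  | zero => exact h
  | succ k ih =>
    rw [Function.iterate_succ_apply', Function.iterate_succ_apply']
    exact step_mono φ ih

theorem Cl_mono (φ : Finset (X × ℕ) → X) {S T : Set X} (h : S ⊆ T) : Cl φ S ⊆ Cl φ T :=
  iUnion_mono fun k => iter_mono φ h k

theorem iter_le (φ : Finset (X × ℕ) → X) (S : Set X) {k m : ℕ} (h : k ≤ m) :
    (step φ)^[k] S ⊆ (step φ)^[m] S := by
  induction m, h using Nat.le_induction with
  | base => exact Subset.rfl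
  | succ m _ ih =>
    refine ih.trans ?_
    rw [Function.iterate_succ_apply']
    exact subset_union_left

theorem sub_Cl (φ : Finset (X × ℕ) → X) (S : Set X) : S ⊆ Cl φ S :=
  subset_iUnion (fun k : ℕ => (step φ)^[k] S) 0

theorem Cl_closed (φ : Finset (X × ℕ) → X) (S : Set X) (F : Finset (X × ℕ))
    (hF : ∀ q ∈ F, q.1 ∈ Cl φ S) : φ F ∈ Cl φ S := by
  have h1 : ∀ q : X × ℕ, ∃ k : ℕ, q ∈ F → q.1 ∈ (step φ)^[k] S := by
    intro q
    by_cases hq : q ∈ F
    · obtain ⟨k, hk⟩ := mem_iUnion.mp (hF q hq)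
      exact ⟨k, fun _ => hk⟩
    · exact ⟨0, fun h => absurd h hq⟩
  choose f hf using h1
  refine mem_iUnion.mpr ⟨F.sup f + 1, ?_⟩
  rw [Function.iterate_succ_apply']
  refine Or.inr ⟨F, ?_, rfl⟩
  intro q hq
  exact iter_le φ S (Finset.le_sup hq) (hf q hq)

end CHAINw

open CHAINw

theorem t_CHAIN : S_CHAIN.{u} := by
  intro X _ hsep W _ _ hOm φ
  have hpk : ∀ S : Set X, ∃ z, S.Countable → z ∉ closure S := by
    intro S
    by_cases hS : S.Countable
    · by_contra hcon
      push Not at hcon
      apply hsep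
      refine ⟨S, hS, fun z => ?_⟩
      exact (hcon z).2
    · obtain ⟨z⟩ : Nonempty X := by
        by_contra hne
        rw [not_nonempty_iff] at hne
        exact hS (Set.Countable.mono (fun x _ => (hne.false x).elim) Set.countable_empty)
      exact ⟨z, fun h => absurd h hS⟩
  choose pick hpick using hpk
  let z : W → X := WellFounded.fix (wellFounded_lt (α := W))
    (fun w ih => pick (Cl φ {x | ∃ v, ∃ h : v < w, x = ih v h}))
  have hz : ∀ w, z w = pick (Cl φ (z '' Iio w)) := by
    intro w
    have h1 : z w = pick (Cl φ {x | ∃ v, ∃ _ : v < w, x = z v}) :=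
      WellFounded.fix_eq _ _ w
    rw [h1]
    congr 2
    ext x
    constructor
    · rintro ⟨v, hv, rfl⟩
      exact ⟨v, hv, rfl⟩
    · rintro ⟨v, hv, rfl⟩
      exact ⟨v, hv, rfl⟩
  have hcount : ∀ w, (Cl φ (z '' Iio w)).Countable := fun w =>
    Cl_countable φ ((hOm.1 w).image z)
  have hmono : Monotone (fun w => Cl φ (z '' Iio w)) := by
    intro w w' hw
    exact Cl_mono φ (image_mono (Iio_subset_Iio hw))
  have hWne : Nonempty W := by
    by_contra hne
    rw [not_nonempty_iff] at hne
    exact hOm.2 (Set.Countable.mono (fun x _ => (hne.false x).elim) Set.countable_empty)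
  refine ⟨fun w => Cl φ (z '' Iio w), hcount, hmono, ?_, ?_⟩
  · intro F hF
    have h1 : ∀ q : X × ℕ, ∃ w : W, q ∈ F → q.1 ∈ Cl φ (z '' Iio w) := by
      intro q
      by_cases hq : q ∈ F
      · obtain ⟨w, hw⟩ := mem_iUnion.mp (hF q hq)
        exact ⟨w, fun _ => hw⟩
      · exact ⟨Classical.choice hWne, fun h => absurd h hq⟩
    choose f hf using h1
    classical
    obtain ⟨w, hw⟩ := Finset.exists_le (F.image f)
    refine mem_iUnion.mpr ⟨w, Cl_closed φ _ F ?_⟩
    intro q hq
    exact hmono (hw (f q) (Finset.mem_image_of_mem f hq)) (hf q hq)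
  · intro w
    obtain ⟨w', hw'⟩ : ∃ w', w < w' := by
      by_contra hcon
      push Not at hcon
      apply hOm.2
      have h1 : (Iio w ∪ {w}).Countable := (hOm.1 w).union (countable_singleton w)
      refine h1.mono ?_
      intro v _
      rcases lt_or_eq_of_le (hcon v) with h | h
      · exact Or.inl h
      · exact Or.inr h
    refine ⟨z w, mem_iUnion.mpr ⟨w', sub_Cl φ _ ⟨w, hw', rfl⟩⟩, ?_⟩
    show z w ∉ closure (Cl φ (z '' Iio w))
    rw [hz w]
    exact hpick _ (hcount w)

end H970R2.TAM
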