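import Pool.Agent.H970R2.TAM.Defs

/-! Task CK (helper399): the closure of a closed-off set is ccc. -/

open Set Topology Filter

universe u

namespace H970R2.TAM

theorem t_CK : S_CK.{u} := by
  classical
  intro X K _ _ i hi _ hc U hU hUb Z hZ 𝒰 h𝒰 hdis
  have key : ∀ V : 𝒰, ∃ (z : X) (n : ℕ), z ∈ Z ∧
      ∀ k : closure (i '' Z), (k : K) ∈ U z n → k ∈ V.1 := by
    rintro ⟨V, hV⟩
    obtain ⟨hVo, k, hk⟩ := h𝒰 V hV
    obtain ⟨V', hV'o, rfl⟩ := isOpen_induced_iff.1 hVo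
    obtain ⟨_, hz1, z, hz, rfl⟩ := mem_closure_iff.1 k.2 V' hV'o hk
    obtain ⟨n, hn⟩ := hUb z V' hV'o hz1
    exact ⟨z, n, hz, fun k' hk' => hn (subset_closure hk')⟩
  choose z n hz hsub using key
  have hinj : ∀ V V₂ : 𝒰, (U (z V) (n V) ∩ U (z V₂) (n V₂)).Nonempty → V = V₂ := by
    intro V V₂ hne
    obtain ⟨x, hx, hx'⟩ := hZ {(z V, n V), (z V₂, n V₂)} (by
      intro q hq
      rw [Finset.mem_insert, Finset.mem_singleton] at hq
      rcases hq with rfl | rfl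
      · exact hz V
      · exact hz V₂) (by
      obtain ⟨y, hy1, hy2⟩ := hne
      refine ⟨y, ?_⟩
      rw [mem_iInter₂]
      intro q hq
      rw [Finset.mem_insert, Finset.mem_singleton] at hq
      rcases hq with rfl | rfl
      · exact hy1
      · exact hy2)
    rw [mem_iInter₂] at hx'
    have h1 : i x ∈ U (z V) (n V) := hx' _ (Finset.mem_insert_self _ _)
    have h2 : i x ∈ U (z V₂) (n V₂) :=
      hx' _ (Finset.mem_insert_of_mem (Finset.mem_singleton_self _))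
    have h3 : (⟨i x, subset_closure ⟨x, hx, rfl⟩⟩ : closure (i '' Z)) ∈ V.1 := hsub V _ h1
    have h4 : (⟨i x, subset_closure ⟨x, hx, rfl⟩⟩ : closure (i '' Z)) ∈ V₂.1 := hsub V₂ _ h2
    by_contra hne'
    exact (Set.disjoint_left.1 (hdis V.2 V₂.2 (fun h => hne' (Subtype.ext h)))) h3 h4
  have hcount : (range (fun V : 𝒰 => i ⁻¹' (U (z V) (n V)))).Countable := by
    refine hc _ ?_ ?_
    · rintro _ ⟨V, rfl⟩
      exact ⟨(hU _ _).1.preimage hi, z V, (hU _ _).2⟩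
    · rintro _ ⟨V, rfl⟩ _ ⟨V₂, rfl⟩ hne
      refine Set.disjoint_left.2 fun x h1 h2 => hne ?_
      rw [hinj V V₂ ⟨i x, h1, h2⟩]
  have hfi : Function.Injective (fun V : 𝒰 => i ⁻¹' (U (z V) (n V))) := by
    intro V V₂ h
    have h1 : z V ∈ i ⁻¹' (U (z V) (n V)) := (hU _ _).2
    have h2 : z V ∈ i ⁻¹' (U (z V₂) (n V₂)) := by
      have h3 : i ⁻¹' (U (z V) (n V)) = i ⁻¹' (U (z V₂) (n V₂)) := h
      rw [← h3]
      exact h1
    exact hinj V V₂ ⟨i (z V), h1, h2⟩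
  haveI := hcount.to_subtype
  have h5 : Countable 𝒰 := Function.Injective.countable
    (f := fun V : 𝒰 => (⟨i ⁻¹' (U (z V) (n V)), mem_range_self V⟩ :
      range (fun V : 𝒰 => i ⁻¹' (U (z V) (n V)))))
    (fun a b h => hfi (congrArg Subtype.val h))
  exact Set.countable_coe_iff.1 h5

end H970R2.TAM
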