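import Pool.Agent.H970R2.TAM.Defs

open Set Topology Filter

universe u

namespace H970R2.TAM

namespace DOMaux

/-- the regularization of the family -/
noncomputable def ff {W : Type u} [LinearOrder W] (e : W → W → ℕ) (f : W → ℕ → ℕ) (w : W) (n : ℕ) :
    ℕ := sSup ((fun ξ => f ξ n) '' {ξ | ξ < w ∧ e w ξ ≤ n})

theorem le_ff {W : Type u} [LinearOrder W] {e : W → W → ℕ} (he : Enum e) (f : W → ℕ → ℕ)
    {w ξ : W} {n : ℕ} (h1 : ξ < w) (h2 : e w ξ ≤ n) : f ξ n ≤ ff e f w n := by
  have hfin : {ξ | ξ < w ∧ e w ξ ≤ n}.Finite := by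
    refine Set.Finite.of_finite_image ((Set.finite_Iic n).subset ?_) (f := e w) ?_
    · rintro _ ⟨ξ, hξ, rfl⟩
      exact hξ.2
    · intro a ha b hb hab
      exact he w a b ha.1 hb.1 hab
  exact le_csSup (hfin.image _).bddAbove ⟨ξ, ⟨h1, h2⟩, rfl⟩

end DOMaux

open DOMaux

theorem t_DOM : S_DOM.{u} := by
  classical
  intro W _ hOm ⟨e, he⟩ hH f
  set R : Finset W → Prop := fun F => ∀ n, (F.image (fun w => ff e f w n)).card ≤ n + 1 with hR
  obtain ⟨I, -, hI, hIR⟩ := hH R (by
      intro F G hGF hF n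
      exact (Finset.card_le_card (Finset.image_subset_image hGF)).trans (hF n)) (by
      intro w n
      rw [Finset.image_singleton, Finset.card_singleton]
      omega) (by
      intro 𝒥 h𝒥 hunc
      set Ψ : Finset W → (Σ l : ℕ, (Fin (2 * l) → Finset ℕ)) := fun F =>
        ⟨F.card, fun n => F.image (fun w => ff e f w n)⟩ with hΨ
      have h1 : ¬ Set.InjOn Ψ 𝒥 := by
        intro hinj
        exact hunc (Set.MapsTo.countable_of_injOn (Set.mapsTo_univ Ψ 𝒥) hinj Set.countable_univ)
      rw [Set.InjOn] at h1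
      push Not at h1
      obtain ⟨F, hF, G, hG, hFG, hne⟩ := h1
      refine ⟨F, hF, G, hG, hne, F ∪ G, ?_, Finset.subset_union_left, Finset.subset_union_right⟩
      intro n
      have hcard : F.card = G.card := congrArg (fun x => x.1) hFG
      by_cases hn : n < 2 * F.card
      · have himg : F.image (fun w => ff e f w n) = G.image (fun w => ff e f w n) := by
          have h2 : ∀ (x y : Σ l : ℕ, (Fin (2 * l) → Finset ℕ)) (h : x = y) (h1 : n < 2 * x.1)
              (h2 : n < 2 * y.1), x.2 ⟨n, h1⟩ = y.2 ⟨n, h2⟩ := by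
            rintro x y rfl h1 h2
            rfl
          exact h2 (Ψ F) (Ψ G) hFG hn (show n < 2 * G.card by omega)
        rw [Finset.image_union, ← himg, Finset.union_self]
        exact h𝒥 F hF n
      · have h2 := Finset.card_image_le (s := F ∪ G) (f := fun w => ff e f w n)
        have h3 := Finset.card_union_le F G
        omega) Set.univ hOm.2
  have hfin : ∀ n, ((fun w => ff e f w n) '' I).Finite := by
    intro n
    by_contra hinf
    obtain ⟨t, ht, htc⟩ := Set.Infinite.exists_subset_card_eq hinf (n + 2)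
    obtain ⟨F, hFI, hFt⟩ := Finset.subset_set_image_iff.1 ht
    have := hIR F hFI n
    rw [hFt, htc] at this
    omega
  refine ⟨fun n => sSup ((fun w => ff e f w n) '' I), ?_⟩
  intro w
  have hex : ∃ w' ∈ I, w < w' := by
    by_contra hcon
    push Not at hcon
    apply hI
    have h1 : I ⊆ insert w (Set.Iio w) := by
      intro x hx
      rcases eq_or_lt_of_le (hcon x hx) with h | h
      · exact Or.inl h
      · exact Or.inr h
    exact ((hOm.1 w).insert w).mono h1
  obtain ⟨w', hw'I, hww'⟩ := hex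
  refine ⟨e w' w, fun n hn => ?_⟩
  exact (le_ff he f hww' hn).trans (le_csSup (hfin n).bddAbove ⟨w', hw'I, rfl⟩)

end H970R2.TAM
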