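import Pool.Agent.H970R2.TAM.Defs

open Set Topology Filter

universe u

namespace H970R2.TAM

theorem t_DOMC : S_DOMC.{u} := by
  intro W hD f
  let e : (ℕ × List ℕ) ≃ ℕ := Denumerable.eqv (ℕ × List ℕ)
  obtain ⟨g', hg'⟩ := hD (fun w n => f w (e.symm n))
  refine ⟨fun s => g' (e s), fun w => ?_⟩
  obtain ⟨N, hN⟩ := hg' w
  have h1 : (e ⁻¹' (Set.Iio N)).Finite := (Set.finite_Iio N).preimage e.injective.injOn
  refine h1.subset fun s hs => ?_
  by_contra hcon
  have h2 : N ≤ e s := not_lt.1 hcon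
  have h3 := hN (e s) h2
  simp only [Equiv.symm_apply_apply] at h3
  exact absurd hs (not_lt.2 h3)

end H970R2.TAM
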