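import Pool.Agent.H970R2.TAM.Defs

/-! task DOMF (helper28) -/

open Set Topology Filter

universe u

namespace H970R2.TAM

theorem t_DOMF : S_DOMF.{u} := by
  intro W _ hD
  have hc : Cardinal.mk (Finset W) = Cardinal.mk W := Cardinal.mk_finset_of_infinite W
  obtain ⟨e⟩ := Cardinal.eq.1 hc
  intro f
  obtain ⟨g, hg⟩ := hD (fun w => f (e.symm w))
  refine ⟨g, fun F => ?_⟩
  have h := hg (e F)
  simp only [Equiv.symm_apply_apply] at h
  exact h

end H970R2.TAM
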