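import Pool.Agent.H970R2.TAM.Defs

/-! Task ENUM. -/

universe u

namespace H970R2.TAM

theorem t_ENUM : S_ENUM.{u} := by
  intro W _ hW
  classical
  have h : ∀ β : W, ∃ f : W → ℕ, Set.InjOn f (Set.Iio β) := fun β =>
    Set.countable_iff_exists_injOn.1 (hW.1 β)
  choose f hf using h
  exact ⟨f, fun β α α' h1 h2 h3 => hf β h1 h2 h3⟩

end H970R2.TAM
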