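import Pool.Agent.H970R2.TAM.Defs

open Set Topology Filter

universe u

namespace H970R2.TAM

theorem FC_bd {W : Type u} [LinearOrder W] (h : Om W) (C : Set W) (hC : C.Countable) :
    ∃ w, ∀ c ∈ C, c < w := by
  by_contra hcon
  push Not at hcon
  apply h.2
  have h1 : (⋃ c ∈ C, Set.Iic c).Countable := by
    refine hC.biUnion fun c _ => ?_
    have h2 : Set.Iic c = Set.Iio c ∪ {c} := by
      ext x
      simp only [Set.mem_Iic, Set.mem_union, Set.mem_Iio, Set.mem_singleton_iff]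
      exact le_iff_lt_or_eq
    rw [h2]
    exact (h.1 c).union (Set.countable_singleton c)
  refine h1.mono fun w _ => ?_
  obtain ⟨c, hc, hcw⟩ := hcon w
  exact Set.mem_biUnion hc hcw

/-- FC: the final contradiction -/
theorem t_FC : S_FC.{u} := by
  intro X K _ _ _ i hi hinj U hU hUb W _ hOm Zs hZc hZm hZn D hD hDr hDc hDU
  set ZZ : Set X := ⋃ w, Zs w with hZZ
  set DX : Set X := i ⁻¹' D with hDX
  have hDXc : DX.Countable := hD.preimage hinj
  have h1 : ∀ d : DX, ∃ w, (d : X) ∈ closure (Zs w) := by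
    rintro ⟨d, hd⟩
    have h2 : d ∈ closure ZZ := by
      rw [hi.closure_eq_preimage_closure_image]
      exact hDc hd
    obtain ⟨x, hx, hxl⟩ := mem_closure_iff_seq_limit.1 h2
    have h3 : ∀ n, ∃ w, x n ∈ Zs w := fun n => Set.mem_iUnion.1 (hx n)
    choose wn hwn using h3
    obtain ⟨w, hw⟩ := FC_bd hOm (Set.range wn) (Set.countable_range wn)
    refine ⟨w, mem_closure_of_tendsto hxl (Eventually.of_forall fun n => ?_)⟩
    exact hZm (hw (wn n) ⟨n, rfl⟩).le (hwn n)
  choose wd hwd using h1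
  have : Countable DX := hDXc.to_subtype
  obtain ⟨w, hw⟩ := FC_bd hOm (Set.range wd) (Set.countable_range wd)
  have h4 : DX ⊆ closure (Zs w) := fun d hd =>
    closure_mono (hZm (hw (wd ⟨d, hd⟩) ⟨_, rfl⟩).le) (hwd ⟨d, hd⟩)
  have h5 : ZZ ⊆ closure DX := by
    intro z hz
    rw [mem_closure_iff]
    intro G hG hzG
    obtain ⟨V, hV, rfl⟩ := hi.isOpen_iff.1 hG
    obtain ⟨n, hn⟩ := hUb z V hV hzG
    obtain ⟨y, hyD, hyU⟩ := hDU z hz n
    obtain ⟨d, rfl⟩ := hDr hyD
    exact ⟨d, hn (subset_closure hyU), hyD⟩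
  obtain ⟨z, hz, hzn⟩ := hZn w
  apply hzn
  have h6 : closure DX ⊆ closure (Zs w) := closure_minimal h4 isClosed_closure
  exact h6 (h5 hz)

end H970R2.TAM
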