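import Pool.Agent.H970R2.TAM.Defs

/-! FIN2: from width two to a pseudo-intersection. -/

open Set Topology Filter

universe u

namespace H970R2.TAM

theorem t_FIN2 : S_FIN2.{u} := by
  intro W A g hg c hc hH
  have hgn : ∀ n, n ≤ g n := fun n => hg.le_apply
  by_cases hcase : ∀ w, {n | ¬ (↑(c n) : Set ℕ) ⊆ A w}.Finite
  · refine ⟨{y | ∃ n, y ∈ c n}, ?_, ?_⟩
    · obtain ⟨N, hN⟩ := hH ∅
      apply Set.infinite_of_forall_exists_gt
      intro a
      obtain ⟨y, hy, -⟩ := hN (max N (a + 1)) (le_max_left _ _)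
      refine ⟨y, ⟨_, hy⟩, ?_⟩
      have h1 := ((hc (max N (a + 1))).2 y hy).1
      have h2 := hgn (max N (a + 1))
      have h3 : a + 1 ≤ max N (a + 1) := le_max_right _ _
      omega
    · intro w
      refine ((hcase w).biUnion (t := fun n => (↑(c n) : Set ℕ))
        (fun n _ => (c n).finite_toSet)).subset ?_
      rintro y ⟨⟨n, hy⟩, hyw⟩
      refine Set.mem_biUnion (x := n) ?_ (Finset.mem_coe.2 hy)
      intro hsub
      exact hyw (hsub (Finset.mem_coe.2 hy))
  · push Not at hcase
    obtain ⟨w0, hw0⟩ := hcase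
    refine ⟨{y | ∃ n, (¬ (↑(c n) : Set ℕ) ⊆ A w0) ∧ y ∈ c n ∧ y ∈ A w0}, ?_, ?_⟩
    · obtain ⟨N, hN⟩ := hH {w0}
      apply Set.infinite_of_forall_exists_gt
      intro a
      obtain ⟨n, hn, hna⟩ := Set.Infinite.exists_gt hw0 (max N a)
      have h3 : N ≤ max N a := le_max_left _ _
      have h4 : a ≤ max N a := le_max_right _ _
      obtain ⟨y, hy, hyA⟩ := hN n (by omega)
      refine ⟨y, ⟨n, hn, hy, hyA w0 (Finset.mem_singleton_self _)⟩, ?_⟩
      have h1 := ((hc n).2 y hy).1
      have h2 := hgn n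
      omega
    · intro w
      classical
      obtain ⟨N, hN⟩ := hH {w0, w}
      refine ((Set.finite_Iio N).biUnion (t := fun n => (↑(c n) : Set ℕ))
        (fun n _ => (c n).finite_toSet)).subset ?_
      rintro y ⟨⟨n, hn, hy, hy0⟩, hyw⟩
      refine Set.mem_biUnion (x := n) ?_ (Finset.mem_coe.2 hy)
      by_contra hlt
      have hNn : N ≤ n := not_lt.1 hlt
      obtain ⟨y', hy', hyA'⟩ := hN n hNn
      have h1 := hyA' w0 (by simp)
      have h2 := hyA' w (by simp)
      obtain ⟨z, hz, hz0⟩ := Set.not_subset.1 hn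
      have hz' : z ∈ c n := Finset.mem_coe.1 hz
      have n1 : y ≠ y' := fun h => hyw (h ▸ h2)
      have n2 : y ≠ z := fun h => hz0 (h ▸ hy0)
      have n3 : y' ≠ z := fun h => hz0 (h ▸ h1)
      have hcard : ({y, y', z} : Finset ℕ).card = 3 := Finset.card_eq_three.2
        ⟨y, y', z, n1, n2, n3, rfl⟩
      have hsub : ({y, y', z} : Finset ℕ) ⊆ c n := by
        intro x hx
        simp only [Finset.mem_insert, Finset.mem_singleton] at hx
        rcases hx with rfl | rfl | rfl
        · exact hy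
        · exact hy'
        · exact hz'
      have h5 := Finset.card_le_card hsub
      have h6 := (hc n).1
      omega

end H970R2.TAM
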