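import Pool.Agent.H970R2.TAM.Defs

open Set Topology Filter

universe u

namespace H970R2.TAM

theorem gg_fin {W : Type u} [LinearOrder W] (e : W → W → ℕ) (he : Enum e) (F : Finset W) (n : ℕ) :
    {ξ : W | ∃ β ∈ F, ξ < β ∧ e β ξ ≤ n}.Finite := by
  have h1 : {ξ : W | ∃ β ∈ F, ξ < β ∧ e β ξ ≤ n} = ⋃ β ∈ F, {ξ | ξ < β ∧ e β ξ ≤ n} := by
    ext ξ
    simp only [Set.mem_ofPred_eq, Set.mem_iUnion, exists_prop]
  rw [h1]
  apply Set.Finite.biUnion (Finset.finite_toSet F)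
  intro β _
  apply Set.Finite.of_finite_image (f := e β)
  · apply (Set.finite_Iic n).subset
    rintro _ ⟨ξ, hξ, rfl⟩
    exact hξ.2
  · intro ξ hξ ξ' hξ' h
    exact he β ξ ξ' hξ.1 hξ'.1 h

theorem t_GG : S_GG.{u} := by
  intro W _ hD e he A hA
  have key : ∀ (F : Finset W) (x n : ℕ), ∃ y, x ≤ y ∧ ∀ β ∈ F, ∀ ξ < β, e β ξ ≤ n → y ∈ A ξ := by
    intro F x n
    have hinf := hA (gg_fin e he F n).toFinset
    obtain ⟨y, hy, hxy⟩ := hinf.exists_gt x
    refine ⟨y, hxy.le, fun β hβ ξ hξ hn => ?_⟩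
    rw [Set.mem_iInter₂] at hy
    exact hy ξ ((gg_fin e he F n).mem_toFinset.2 ⟨β, hβ, hξ, hn⟩)
  choose y hy1 hy2 using key
  obtain ⟨h, hh⟩ := hD (fun F x => ((Finset.range (x + 1)).sup (fun n => y F x n)) + 1)
  let g : ℕ → ℕ := fun n => Nat.rec 0 (fun _ x => max (h x) (x + 1)) n
  have gs : ∀ n, g (n + 1) = max (h (g n)) (g n + 1) := fun n => rfl
  have gm : StrictMono g := by
    apply strictMono_nat_of_lt_succ
    intro n
    rw [gs]
    exact lt_of_lt_of_le (Nat.lt_succ_self _) (le_max_right _ _)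
  refine ⟨g, gm, fun F => ?_⟩
  obtain ⟨N, hN⟩ := hh F
  refine ⟨N, fun n hn => ⟨y F (g n) n, hy1 F (g n) n, ?_, hy2 F (g n) n⟩⟩
  have h1 : n ≤ g n := gm.le_apply
  have h2 := hN (g n) (hn.le.trans h1)
  have h3 : y F (g n) n ≤ (Finset.range (g n + 1)).sup (fun n' => y F (g n) n') :=
    Finset.le_sup (f := fun n' => y F (g n) n') (Finset.mem_range.2 (by omega))
  have h4 : h (g n) ≤ g (n + 1) := by
    rw [gs]
    exact le_max_left _ _
  have h5 : y F (g n) n < ((Finset.range (g n + 1)).sup (fun n' => y F (g n) n')) + 1 := by omega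
  exact lt_of_lt_of_le h5 (h2.trans h4)

end H970R2.TAM
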