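import Pool.Agent.H970R2.TAM.Defs

/-!
# HOM: the space of sets all of whose finite subsets are in `R`
-/

set_option autoImplicit false

open Set Topology Filter

universe u

namespace H970R2.TAM

/-- the space of (characteristic functions of) sets all of whose finite subsets are in `R` -/
def HOMX {W : Type u} (R : Finset W → Prop) : Type u :=
  {f : W → Bool // ∀ F : Finset W, (∀ w ∈ F, f w = true) → R F}

instance {W : Type u} (R : Finset W → Prop) : TopologicalSpace (HOMX R) :=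
  inferInstanceAs (TopologicalSpace {f : W → Bool // ∀ F : Finset W, (∀ w ∈ F, f w = true) → R F})

instance {W : Type u} (R : Finset W → Prop) : T2Space (HOMX R) :=
  inferInstanceAs (T2Space {f : W → Bool // ∀ F : Finset W, (∀ w ∈ F, f w = true) → R F})

open Classical in
/-- the characteristic function of a finite set in `R` -/
noncomputable def HOMi {W : Type u} {R : Finset W → Prop}
    (hR : ∀ F G : Finset W, G ⊆ F → R F → R G) (H : Finset W) (hH : R H) : HOMX R :=
  ⟨fun w => decide (w ∈ H), fun F hF => hR H F (fun w hw => by simpa using hF w hw) hH⟩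

theorem HOMi_apply {W : Type u} {R : Finset W → Prop}
    (hR : ∀ F G : Finset W, G ⊆ F → R F → R G) (H : Finset W) (hH : R H) (w : W) :
    (HOMi hR H hH).1 w = true ↔ w ∈ H := by
  classical
  unfold HOMi
  simp

/-- a basic neighbourhood inside an open set -/
theorem HOM_nhd {W : Type u} {R : Finset W → Prop} (U : Set (HOMX R)) (hU : IsOpen U)
    (hne : U.Nonempty) : ∃ (f : HOMX R) (H : Finset W), ∀ g : HOMX R,
      (∀ w ∈ H, g.1 w = f.1 w) → g ∈ U := by
  obtain ⟨f, hf⟩ := hne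
  obtain ⟨V, hV, rfl⟩ := isOpen_induced_iff.1 hU
  obtain ⟨I, u, hI, hsub⟩ := isOpen_pi_iff.1 hV f.1 hf
  refine ⟨f, I, ?_⟩
  intro g hg
  apply hsub
  intro w hw
  have := (hI w hw).2
  rw [← hg w hw] at this
  exact this

theorem HOM_ccc (hDS : S_DS.{u}) {W : Type u} (R : Finset W → Prop)
    (hR : ∀ F G : Finset W, G ⊆ F → R F → R G)
    (hC : ∀ 𝒥 : Set (Finset W), (∀ F ∈ 𝒥, R F) → ¬ 𝒥.Countable →
      ∃ F ∈ 𝒥, ∃ G ∈ 𝒥, F ≠ G ∧ ∃ H, R H ∧ F ⊆ H ∧ G ⊆ H) :
    CountableCellularity (HOMX R) := by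
  classical
  intro 𝒰 hO hdis
  by_contra hnc
  have hex : ∀ U : Set (HOMX R), ∃ (f : HOMX R) (H : Finset W), U ∈ 𝒰 → ∀ g : HOMX R,
      (∀ w ∈ H, g.1 w = f.1 w) → g ∈ U := by
    intro U
    by_cases hU : U ∈ 𝒰
    · obtain ⟨f, H, h⟩ := HOM_nhd U (hO U hU).1 (hO U hU).2
      exact ⟨f, H, fun _ => h⟩
    · have hne : 𝒰.Nonempty := by
        rw [Set.nonempty_iff_ne_empty]
        rintro rfl
        exact hnc Set.countable_empty
      obtain ⟨U', hU'⟩ := hne
      obtain ⟨f, -⟩ := (hO U' hU').2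
      exact ⟨f, ∅, fun h => absurd h hU⟩
  choose f H hfH using hex
  obtain ⟨J', D, hJ', hJnc, hD, hDD⟩ := hDS W (Set (HOMX R)) H 𝒰 hnc
  let P : Set (HOMX R) → Finset W := fun U => (H U).filter (fun w => (f U).1 w = true)
  have hPmem : ∀ U w, w ∈ P U ↔ w ∈ H U ∧ (f U).1 w = true := fun U w => Finset.mem_filter
  have hPR : ∀ U, R (P U) := fun U => (f U).2 (P U) (fun w hw => ((hPmem U w).1 hw).2)
  -- constant trace
  obtain ⟨E, hE⟩ : ∃ E : Finset W, ¬ ({U | U ∈ J' ∧ P U ∩ D = E} : Set (Set (HOMX R))).Countable := by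
    by_contra hcon
    push Not at hcon
    apply hJnc
    have hsub : J' ⊆ ⋃ E ∈ (↑D.powerset : Set (Finset W)), {U | U ∈ J' ∧ P U ∩ D = E} := by
      intro U hU
      rw [Set.mem_iUnion₂]
      exact ⟨P U ∩ D, Finset.mem_coe.2 (Finset.mem_powerset.2 Finset.inter_subset_right),
        hU, rfl⟩
    exact (Set.Countable.biUnion (Finset.countable_toSet _) (fun E _ => hcon E)).mono hsub
  set J'' : Set (Set (HOMX R)) := {U | U ∈ J' ∧ P U ∩ D = E} with hJ''
  obtain ⟨U, hU, U', hU', hne, hRu⟩ : ∃ U ∈ J'', ∃ U' ∈ J'', U ≠ U' ∧ R (P U ∪ P U') := by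
    by_cases hinj : Set.InjOn P J''
    · have hnc2 : ¬ (P '' J'').Countable := fun h =>
        hE (Set.countable_of_injective_of_countable_image hinj h)
      obtain ⟨F, ⟨U, hU, rfl⟩, G, ⟨U', hU', rfl⟩, hFG, H0, hH0, h1, h2⟩ := hC (P '' J'')
        (by rintro _ ⟨U, -, rfl⟩; exact hPR U) hnc2
      exact ⟨U, hU, U', hU', fun h => hFG (by rw [h]), hR H0 _ (Finset.union_subset h1 h2) hH0⟩
    · unfold Set.InjOn at hinj
      push Not at hinj
      obtain ⟨U, hU, U', hU', he, hne⟩ := hinj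
      refine ⟨U, hU, U', hU', hne, ?_⟩
      rw [← he, Finset.union_self]
      exact hPR U
  have key : ∀ V ∈ J'', ∀ V' ∈ J'', V ≠ V' → ∀ w ∈ H V, w ∈ P V' → w ∈ P V := by
    intro V hV V' hV' hVV w hw hw'
    have h1 : w ∈ D := hDD V hV.1 V' hV'.1 hVV w hw ((hPmem V' w).1 hw').1
    have h2 : w ∈ P V' ∩ D := Finset.mem_inter.2 ⟨hw', h1⟩
    rw [hV'.2, ← hV.2] at h2
    exact (Finset.mem_inter.1 h2).1
  have hg : ∀ V ∈ J'', ∀ V' ∈ J'', V ≠ V' → ∀ hRR : R (P V ∪ P V'), HOMi hR _ hRR ∈ V := by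
    intro V hV V' hV' hVV hRR
    apply hfH V (hJ' hV.1)
    intro w hw
    rw [Bool.eq_iff_iff, HOMi_apply, Finset.mem_union]
    constructor
    · rintro (h | h)
      · exact ((hPmem V w).1 h).2
      · exact ((hPmem V w).1 (key V hV V' hV' hVV w hw h)).2
    · intro h
      exact Or.inl ((hPmem V w).2 ⟨hw, h⟩)
  have g1 := hg U hU U' hU' hne hRu
  have hRu' : R (P U' ∪ P U) := by rw [Finset.union_comm]; exact hRu
  have g2 := hg U' hU' U hU (Ne.symm hne) hRu'
  have g3 : HOMi hR (P U ∪ P U') hRu = HOMi hR (P U' ∪ P U) hRu' := by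
    congr 1
    exact Finset.union_comm _ _
  rw [← g3] at g2
  have hdd := hdis (hJ' hU.1) (hJ' hU'.1) hne
  exact (Set.disjoint_left.1 hdd) g1 g2

theorem t_HOM : S_HOM.{u} := by
  classical
  intro hDS hT W R hR h1 hC S hS
  let br : W → Set (HOMX R) := fun w => {f : HOMX R | f.1 w = true}
  have hopen : ∀ w, IsOpen (br w) := by
    intro w
    have hc : Continuous (fun f : HOMX R => f.1 w) := (continuous_apply w).comp continuous_subtype_val
    exact (isOpen_discrete ({true} : Set Bool)).preimage hc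
  have hself : ∀ w, HOMi hR {w} (h1 w) ∈ br w := by
    intro w
    show (HOMi hR {w} (h1 w)).1 w = true
    rw [HOMi_apply]
    exact Finset.mem_singleton_self w
  have hinj : Function.Injective br := by
    intro w w' he
    have := hself w
    rw [he] at this
    have h2 : (HOMi hR {w} (h1 w)).1 w' = true := this
    rw [HOMi_apply, Finset.mem_singleton] at h2
    exact h2.symm
  obtain ⟨η, hη, hηnc, hcen⟩ := hT (HOMX R) (HOM_ccc hDS R hR hC) (br '' S)
    (by rintro _ ⟨w, -, rfl⟩; exact ⟨hopen w, _, hself w⟩)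
    (fun h => hS (Set.countable_of_injective_of_countable_image hinj.injOn h))
  refine ⟨{w | w ∈ S ∧ br w ∈ η}, fun w hw => hw.1, ?_, ?_⟩
  · intro hc
    apply hηnc
    refine (hc.image br).mono ?_
    intro V hV
    obtain ⟨w, hw, rfl⟩ := hη hV
    exact ⟨w, ⟨hw, hV⟩, rfl⟩
  · intro F hF
    obtain ⟨f, hf⟩ := hcen (F.image br) (by
      intro V hV
      rw [Finset.mem_coe, Finset.mem_image] at hV
      obtain ⟨w, hw, rfl⟩ := hV
      exact (hF (Finset.mem_coe.2 hw)).2)
    apply f.2 F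
    intro w hw
    exact Set.mem_sInter.1 hf (br w) (Finset.mem_coe.2 (Finset.mem_image_of_mem br hw))

end H970R2.TAM
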