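import Pool.Agent.H970R2.TAM.Defs

open Set Topology Filter

universe u

namespace H970R2.TAM

theorem t_IS : S_IS.{u} := by
  intro X K _ _ i U hU hbase O hO hiO Z W ψ hψ hψZ hW F hF n
  obtain ⟨⟨y, hy⟩, hyF⟩ := hF
  set G : Set K := ⋂ w ∈ F, U (ψ w).1 (ψ w).2 with hGdef
  have hG : IsOpen G := isOpen_biInter_finset (fun w _ => (hU _ _).1)
  have hyG : y ∈ G := by
    rw [hGdef]
    simp only [mem_iInter] at hyF ⊢
    exact fun w hw => hyF w hw
  obtain ⟨_, hz, z, hzZ, rfl⟩ := mem_closure_iff.mp hy G hG hyG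
  obtain ⟨m, hm⟩ := hbase z (G ∩ O n) (hG.inter (hO n)) ⟨hz, hiO n z⟩
  obtain ⟨w', hw'⟩ := hψ z hzZ m
  refine ⟨w', ?_⟩
  intro x hx
  have h1 : x.1 ∈ closure (U (ψ w').1 (ψ w').2) :=
    continuous_subtype_val.closure_preimage_subset _ hx
  rw [hw'] at h1
  have h2 := hm h1
  refine ⟨?_, h2.2⟩
  have h3 := h2.1
  rw [hGdef] at h3
  simp only [mem_iInter] at h3 ⊢
  exact fun w hw => h3 w hw

end H970R2.TAM
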