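import Pool.Agent.H970R2.TAM.Defs

/-!
# Task L1 (helper201): successors
-/

open Set Topology Filter

universe u

namespace H970R2.TAM

theorem t_L1 : S_L1.{u} := by
  classical
  intro W hP K _ p O hp hO hstar c hc
  have key : ∀ k n : ℕ, ∃ s : ℕ → ℕ, (∀ t, ∃ w', c (s t) ∈ p w' ∧ closure (p w') ⊆ O n) ∧
      ∀ w, c k ∈ p w → ∃ T, ∀ t ≥ T, c (s t) ∈ p w := by
    intro k n
    obtain ⟨w0, _⟩ := hstar ∅ ⟨c 0, by simp⟩ 0
    let A : W → Set ℕ := fun w => {m | (∃ w', c m.unpair.1 ∈ p w' ∧ closure (p w') ⊆ O n) ∧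
      (c k ∈ p w → c m.unpair.1 ∈ p w)}
    have hA : ∀ F : Finset W, (⋂ w ∈ F, A w).Infinite := by
      intro F
      obtain ⟨w', hw'⟩ := hstar (F.filter (fun w => c k ∈ p w)) ⟨c k, by
        rw [mem_iInter₂]
        intro w hw
        exact (Finset.mem_filter.1 hw).2⟩ n
      obtain ⟨j, hj⟩ := hc w'
      apply Set.Infinite.mono (s := Set.range (fun i : ℕ => Nat.pair j i))
      · rintro _ ⟨i, rfl⟩
        rw [mem_iInter₂]
        intro w hw
        refine ⟨⟨w', ?_, fun x hx => (hw' hx).2⟩, fun hk => ?_⟩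
        · simp only [Nat.unpair_pair]
          exact hj
        · simp only [Nat.unpair_pair]
          have h1 := (hw' (subset_closure hj)).1
          rw [mem_iInter₂] at h1
          exact h1 w (Finset.mem_filter.2 ⟨hw, hk⟩)
      · apply Set.infinite_range_of_injective
        intro a b hab
        have := congrArg (fun m => (Nat.unpair m).2) hab
        simpa using this
    obtain ⟨B, hB, hBA⟩ := hP A hA
    have hB0 : (B ∩ A w0).Infinite := by
      intro hfin
      apply hB
      have : B ⊆ (B ∩ A w0) ∪ (B \ A w0) := by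
        rw [Set.inter_union_sdiff]
      exact (hfin.union (hBA w0)).subset this
    have hex : ∀ t : ℕ, ∃ m, m ∈ B ∩ A w0 ∧ t ≤ m := by
      intro t
      obtain ⟨m, hm, hm2⟩ := hB0.exists_gt t
      exact ⟨m, hm, hm2.le⟩
    choose m hm hmt using hex
    refine ⟨fun t => (m t).unpair.1, fun t => (hm t).2.1, fun w hw => ?_⟩
    obtain ⟨T0, hT0⟩ := (hBA w).bddAbove
    refine ⟨T0 + 1, fun t ht => ?_⟩
    have h1 : m t ∈ A w := by
      by_contra h
      have h2 := hT0 (show m t ∈ B \ A w from ⟨(hm t).1, h⟩)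
      have h3 := hmt t
      omega
    exact h1.2 hw
  choose nxt h1 h2 using key
  exact ⟨nxt, h1, fun w k n hk => h2 k n w hk⟩

end H970R2.TAM
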