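import Pool.Agent.H970R2.TAM.Defs

/-!
# L2: paths and cluster points
-/

open Set Topology Filter

universe u

namespace H970R2.TAM

namespace TL2aux

variable {W : Type u}

/-- the list of constraints at a node -/
def cst (om : ℕ → ℕ → W) : ℕ → List ℕ → List W
  | 0, _ => []
  | (_ + 1), [] => []
  | (n + 1), (j :: l) => om j n :: cst om n l

/-- supremum of a list of natural numbers -/
def lsup : List ℕ → ℕ
  | [] => 0
  | (a :: l) => max a (lsup l)

theorem le_lsup : ∀ (l : List ℕ) (a : ℕ), a ∈ l → a ≤ lsup l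
  | [], a, h => by simp at h
  | (b :: l), a, h => by
    rcases List.mem_cons.1 h with h | h
    · rw [h]; exact le_max_left _ _
    · exact le_trans (le_lsup l a h) (le_max_right _ _)

/-- the threshold of a node -/
def thr (om : ℕ → ℕ → W) (T : W → ℕ → ℕ → ℕ) (H : ℕ × List ℕ → ℕ) (s : ℕ × List ℕ) : ℕ :=
  max (H s) (lsup ((cst om s.1 s.2).map (fun w => T w s.2.headI s.1)))

theorem H_le_thr (om : ℕ → ℕ → W) (T : W → ℕ → ℕ → ℕ) (H : ℕ × List ℕ → ℕ) (s : ℕ × List ℕ) :
    H s ≤ thr om T H s := le_max_left _ _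

theorem T_le_thr (om : ℕ → ℕ → W) (T : W → ℕ → ℕ → ℕ) (H : ℕ × List ℕ → ℕ) (s : ℕ × List ℕ)
    (w : W) (hw : w ∈ cst om s.1 s.2) : T w s.2.headI s.1 ≤ thr om T H s :=
  le_trans (le_lsup _ _ (List.mem_map.2 ⟨w, hw, rfl⟩)) (le_max_right _ _)

/-- the path starting at a node -/
def path (nxt : ℕ → ℕ → ℕ → ℕ) (om : ℕ → ℕ → W) (T : W → ℕ → ℕ → ℕ) (H : ℕ × List ℕ → ℕ)
    (s0 : ℕ × List ℕ) : ℕ → ℕ × List ℕ
  | 0 => s0
  | (r + 1) => ((path nxt om T H s0 r).1 + 1,
      nxt (path nxt om T H s0 r).2.headI (path nxt om T H s0 r).1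
        (thr om T H (path nxt om T H s0 r)) :: (path nxt om T H s0 r).2)

variable (nxt : ℕ → ℕ → ℕ → ℕ) (om : ℕ → ℕ → W) (T : W → ℕ → ℕ → ℕ) (H : ℕ × List ℕ → ℕ)
    (s0 : ℕ × List ℕ)

theorem path_fst (r : ℕ) : (path nxt om T H s0 r).1 = s0.1 + r := by
  induction r with
  | zero => rfl
  | succ r ih =>
    show (path nxt om T H s0 r).1 + 1 = _
    rw [ih]; rfl

theorem path_head (r : ℕ) : (path nxt om T H s0 (r + 1)).2.headI =
    nxt (path nxt om T H s0 r).2.headI (path nxt om T H s0 r).1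
        (thr om T H (path nxt om T H s0 r)) := rfl

theorem mem_cst (q d : ℕ) :
    om (path nxt om T H s0 (q + 1)).2.headI (s0.1 + q) ∈
      cst om (path nxt om T H s0 (q + 1 + d)).1 (path nxt om T H s0 (q + 1 + d)).2 := by
  induction d with
  | zero =>
    show om (path nxt om T H s0 (q + 1)).2.headI (s0.1 + q) ∈
      cst om ((path nxt om T H s0 q).1 + 1)
        ((path nxt om T H s0 (q + 1)).2.headI :: (path nxt om T H s0 q).2)
    rw [← path_fst nxt om T H s0 q]
    exact List.mem_cons_self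
  | succ d ih =>
    show om (path nxt om T H s0 (q + 1)).2.headI (s0.1 + q) ∈
      cst om ((path nxt om T H s0 (q + 1 + d)).1 + 1)
        ((path nxt om T H s0 (q + 1 + d + 1)).2.headI :: (path nxt om T H s0 (q + 1 + d)).2)
    exact List.mem_cons_of_mem _ ih

end TL2aux

open TL2aux

theorem t_L2 : S_L2.{u} := by
  intro hDC W hDom K _ _ p O hp hO hI c hc nxt hn1 hn2
  classical
  -- `W` is nonempty
  have hW : Nonempty W := by
    obtain ⟨w, -⟩ := hI ∅ (by simp only [Finset.notMem_empty, iInter_of_empty, iInter_univ]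
                              exact ⟨c 0, mem_univ _⟩) 0
    exact ⟨w⟩
  have hom : ∀ j n : ℕ, ∃ w : W, (∃ w', c j ∈ p w' ∧ closure (p w') ⊆ O n) →
      c j ∈ p w ∧ closure (p w) ⊆ O n := by
    intro j n
    by_cases h : ∃ w', c j ∈ p w' ∧ closure (p w') ⊆ O n
    · obtain ⟨w', h'⟩ := h
      exact ⟨w', fun _ => h'⟩
    · exact ⟨Classical.choice hW, fun h' => absurd h' h⟩
  choose om hom using hom
  have hT : ∀ (w : W) (k n : ℕ), ∃ t0 : ℕ, c k ∈ p w → ∀ t ≥ t0, c (nxt k n t) ∈ p w := by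
    intro w k n
    by_cases h : c k ∈ p w
    · obtain ⟨t0, h0⟩ := hn2 w k n h
      exact ⟨t0, fun _ => h0⟩
    · exact ⟨0, fun h' => absurd h' h⟩
  choose T hT using hT
  obtain ⟨H, hH⟩ := hDC W hDom (fun w s => T w s.2.headI s.1)
  -- the paths
  set P : ℕ → ℕ → ℕ → ℕ × List ℕ := fun n0 k r => path nxt om T H (n0, [k]) r with hP
  set x : ℕ → ℕ → ℕ → ℕ := fun n0 k r => (P n0 k r).2.headI with hx
  have hstep : ∀ n0 k r, x n0 k (r + 1) = nxt (x n0 k r) (n0 + r) (thr om T H (P n0 k r)) := by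
    intro n0 k r
    have h1 := path_head nxt om T H (n0, [k]) r
    rw [path_fst nxt om T H (n0, [k]) r] at h1
    exact h1
  have hA : ∀ n0 k q d, c (x n0 k (q + 1 + d)) ∈ p (om (x n0 k (q + 1)) (n0 + q)) ∧
      closure (p (om (x n0 k (q + 1)) (n0 + q))) ⊆ O (n0 + q) := by
    intro n0 k q d
    have h0 : ∃ w', c (x n0 k (q + 1)) ∈ p w' ∧ closure (p w') ⊆ O (n0 + q) := by
      rw [hstep]
      exact hn1 _ _ _
    have h1 := hom _ _ h0
    refine ⟨?_, h1.2⟩
    induction d with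
    | zero => exact h1.1
    | succ d ih =>
      have h2 : x n0 k (q + 1 + (d + 1)) = x n0 k ((q + 1 + d) + 1) := rfl
      rw [h2, hstep n0 k (q + 1 + d)]
      apply hT _ _ _ ih
      have h3 := T_le_thr om T H (P n0 k (q + 1 + d)) (om (x n0 k (q + 1)) (n0 + q))
        (mem_cst nxt om T H (n0, [k]) q d)
      have h4 : (P n0 k (q + 1 + d)).1 = n0 + (q + 1 + d) := path_fst nxt om T H (n0, [k]) _
      rw [h4] at h3
      exact h3
  have hy : ∀ n0 k : ℕ, ∃ y : K, MapClusterPt y atTop (fun r => c (x n0 k r)) := by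
    intro n0 k
    obtain ⟨y, -, hy⟩ := isCompact_univ.exists_mapClusterPt (f := atTop)
      (u := fun r => c (x n0 k r)) (by simp)
    exact ⟨y, hy⟩
  choose y hy using hy
  have hcl : ∀ n0 k (S : Set K) (r0 : ℕ), (∀ r ≥ r0, c (x n0 k r) ∈ S) →
      y n0 k ∈ closure S := by
    intro n0 k S r0 h
    rw [mem_closure_iff_nhds]
    intro V hV
    have h1 := (mapClusterPt_iff_frequently.1 (hy n0 k)) V hV
    obtain ⟨r, hr, hr2⟩ := (frequently_atTop.1 h1) r0
    exact ⟨_, hr2, h r hr⟩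
  refine ⟨range (fun q : ℕ × ℕ => y q.1 q.2), countable_range _, ?_, ?_⟩
  · rintro _ ⟨⟨n0, k⟩, rfl⟩
    refine mem_iInter.2 fun i => ?_
    have h1 : y n0 k ∈ closure (p (om (x n0 k (i + 1)) (n0 + i))) := by
      apply hcl n0 k _ (i + 1)
      intro r hr
      obtain ⟨d, rfl⟩ := Nat.exists_eq_add_of_le hr
      exact (hA n0 k i d).1
    exact hO (Nat.le_add_left i n0) ((hA n0 k i 0).2 h1)
  · intro w
    obtain ⟨w', hw'⟩ := hI {w} (by simpa using (hp w).2) 0
    obtain ⟨k, hk⟩ := hc w'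
    have hf := hH w'
    obtain ⟨n0, hn0⟩ : ∃ n0 : ℕ, ∀ s ∈ {s : ℕ × List ℕ | H s < T w' s.2.headI s.1}, s.1 < n0 := by
      have hb := (hf.image Prod.fst).bddAbove
      obtain ⟨B, hB⟩ := hb
      refine ⟨B + 1, fun s hs => ?_⟩
      exact Nat.lt_succ_of_le (hB (mem_image_of_mem _ hs))
    have hall : ∀ r, c (x n0 k r) ∈ p w' := by
      intro r
      induction r with
      | zero => exact hk
      | succ r ih =>
        rw [hstep]
        apply hT _ _ _ ih
        have h4 : (P n0 k r).1 = n0 + r := path_fst nxt om T H (n0, [k]) _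
        have h5 : ¬ (H (P n0 k r) < T w' (P n0 k r).2.headI (P n0 k r).1) := by
          intro h6
          have h7 := hn0 _ h6
          rw [h4] at h7
          omega
        rw [h4] at h5
        exact le_trans (not_lt.1 h5) (H_le_thr om T H _)
    refine ⟨y n0 k, ⟨⟨(n0, k), rfl⟩, ?_⟩⟩
    have h8 := hw' (hcl n0 k (p w') 0 (fun r _ => hall r))
    simpa using h8.1

end H970R2.TAM
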