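import Pool.Agent.H970R2.TAM.Defs

open Set Topology Filter

universe u

namespace H970R2.TAM

theorem t_NB : S_NB.{u} := by
  intro X _ _ _
  have hi : IsDenseInducing (stoneCechUnit : X → StoneCech X) := isDenseInducing_stoneCechUnit
  have key : ∀ x : X, ∃ U : ℕ → Set (StoneCech X), (∀ n, IsOpen (U n) ∧ stoneCechUnit x ∈ U n) ∧
      ∀ V : Set (StoneCech X), IsOpen V → stoneCechUnit x ∈ V → ∃ n, closure (U n) ⊆ V := by
    intro x
    obtain ⟨B, hB⟩ := (𝓝 x).exists_antitone_basis
    have h1 : ∀ n, ∃ V, IsOpen V ∧ (stoneCechUnit : X → StoneCech X) ⁻¹' V = interior (B n) :=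
      fun n => hi.isInducing.isOpen_iff.1 isOpen_interior
    choose V hVo hV using h1
    refine ⟨V, fun n => ⟨hVo n, ?_⟩, ?_⟩
    · have h2 : x ∈ interior (B n) := mem_interior_iff_mem_nhds.2 (hB.1.mem_of_mem trivial)
      rw [← hV n] at h2
      exact h2
    · intro O hO hxO
      obtain ⟨t, ht, htc, htO⟩ := exists_mem_nhds_isClosed_subset (hO.mem_nhds hxO)
      have h3 : (stoneCechUnit : X → StoneCech X) ⁻¹' t ∈ 𝓝 x :=
        hi.continuous.continuousAt ht
      obtain ⟨n, -, hn⟩ := hB.1.mem_iff.1 h3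
      refine ⟨n, ?_⟩
      have h4 : V n ⊆ closure (V n ∩ range (stoneCechUnit : X → StoneCech X)) :=
        hi.dense.open_subset_closure_inter (hVo n)
      have h5 : V n ∩ range (stoneCechUnit : X → StoneCech X) ⊆ t := by
        rintro _ ⟨hy, y, rfl⟩
        have h6 : y ∈ interior (B n) := by
          rw [← hV n]
          exact hy
        exact hn (interior_subset h6)
      calc closure (V n) ⊆ closure (closure (V n ∩ range (stoneCechUnit : X → StoneCech X))) :=
            closure_mono h4
        _ = closure (V n ∩ range (stoneCechUnit : X → StoneCech X)) := closure_closure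
        _ ⊆ t := closure_minimal h5 htc
        _ ⊆ O := htO
  choose U hU1 hU2 using key
  exact ⟨U, fun x n => hU1 x n, fun x V hV hx => hU2 x V hV hx⟩

end H970R2.TAM
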