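import Pool.Agent.H970R2.TAM.Defs

/-! Assembly of `PInt` (task PIA). -/

open Set Topology Filter

universe u

namespace H970R2.TAM

lemma PIA_blk {W : Type u} [LinearOrder W] (A : W → Set ℕ) (e : W → W → ℕ) (g : ℕ → ℕ)
    (hg : StrictMono g) (w : W) (n : ℕ) : ∃ y, y ∈ Blk A e g w n := by
  by_cases h : ∃ z, g n ≤ z ∧ z < g (n + 1) ∧ ∀ ξ < w, e w ξ ≤ n → z ∈ A ξ
  · obtain ⟨z, h1, h2, h3⟩ := h
    exact ⟨z, h1, h2, fun _ => h3⟩
  · exact ⟨g n, le_rfl, hg (Nat.lt_succ_self n), fun h' => absurd h' h⟩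

theorem t_PIA : S_PIA.{u} := by
  intro hDS hEN hDF hGG h2C h2E hF2 W _ hOm hHom hDom A hA
  obtain ⟨e, he⟩ := hEN W hOm
  have hinf : Infinite W := by
    by_contra hf
    have hfin : Finite W := not_infinite_iff_finite.1 hf
    exact hOm.2 (Set.toFinite _).countable
  obtain ⟨g, hg, hgF⟩ := hGG W (hDF W hinf hDom) e he A hA
  have her : ∀ F G : Finset W, G ⊆ F → R2 A e g F → R2 A e g G := by
    intro F G hGF hF n
    obtain ⟨c, h1, h2⟩ := hF n
    exact ⟨c, fun β hβ => h1 β (hGF hβ), fun α hα β hβ => h2 α (hGF hα) β (hGF hβ)⟩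
  have hsing : ∀ w : W, R2 A e g {w} := by
    intro w n
    obtain ⟨y, hy⟩ := PIA_blk A e g hg w n
    refine ⟨fun _ => {y}, ?_, fun α _ β _ _ _ => rfl⟩
    intro β hβ
    rw [Finset.mem_singleton] at hβ
    subst hβ
    refine ⟨by simp, ?_, y, by simp, hy⟩
    intro y' hy'
    rw [Finset.mem_singleton] at hy'
    subst hy'
    exact ⟨hy.1, hy.2.1⟩
  obtain ⟨I, -, hI, hIR⟩ := hHom (R2 A e g) her hsing (h2C hDS W hOm e he A g hg hgF) Set.univ
    hOm.2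
  obtain ⟨c, hc1, hc2⟩ := h2E W hOm e he A g hg hgF I hI hIR
  exact hF2 W A g hg c hc1 hc2

end H970R2.TAM
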