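import Pool.Agent.H970R2.TAM.Defs

open Set Topology Filter

universe u

namespace H970R2.TAM

theorem t_PREC : S_PREC.{u} := by
  intro hTAM K _ _ hccc ι S V hS hV
  by_cases hc : (V '' S).Countable
  · have hex : ∃ U ∈ V '' S, ¬ {i | i ∈ S ∧ V i = U}.Countable := by
      by_contra hcon
      push Not at hcon
      apply hS
      have hsub : S ⊆ ⋃ U ∈ V '' S, {i | i ∈ S ∧ V i = U} := by
        intro i hi
        simp only [mem_iUnion]
        exact ⟨V i, ⟨i, hi, rfl⟩, hi, rfl⟩
      exact (hc.biUnion hcon).mono hsub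
    obtain ⟨U, hU, hUc⟩ := hex
    refine ⟨{i | i ∈ S ∧ V i = U}, fun i hi => hi.1, hUc, ?_⟩
    intro F hF
    obtain ⟨i0, hi0, rfl⟩ := hU
    obtain ⟨x, hx⟩ := (hV i0 hi0).2
    refine ⟨x, ?_⟩
    simp only [mem_iInter]
    intro i hi
    rw [(hF hi).2]
    exact hx
  · obtain ⟨η, hη, hηc, hcen⟩ := hTAM K hccc (V '' S)
      (by rintro U ⟨i, hi, rfl⟩; exact hV i hi) hc
    refine ⟨{i | i ∈ S ∧ V i ∈ η}, fun i hi => hi.1, ?_, ?_⟩
    · intro hcount
      apply hηc
      refine (hcount.image V).mono ?_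
      intro U hU
      obtain ⟨i, hi, rfl⟩ := hη hU
      exact ⟨i, ⟨hi, hU⟩, rfl⟩
    · intro F hF
      classical
      obtain ⟨x, hx⟩ := hcen (F.image V) (by
        intro U hU
        rw [Finset.mem_coe, Finset.mem_image] at hU
        obtain ⟨i, hi, rfl⟩ := hU
        exact (hF hi).2)
      refine ⟨x, ?_⟩
      simp only [mem_iInter]
      intro i hi
      exact hx (V i) (by
        rw [Finset.mem_coe, Finset.mem_image]
        exact ⟨i, hi, rfl⟩)

end H970R2.TAM
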