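import Pool.Agent.H970R2.TAM.Defs

/-! Task SCA (helper347): assembly of the countable set of points. -/

open Set Topology Filter

universe u

namespace H970R2.TAM

theorem SCA_mono {W : Type u} [LinearOrder W] {K : Type u} (e : W → W → ℕ) (p : W → Set K)
    (F G : Finset W) (hGF : G ⊆ F) (hF : RC e p F) : RC e p G := by
  intro i
  obtain ⟨c, hc, h⟩ := hF i
  refine ⟨c, fun β hβ => hc β (hGF hβ), fun t ht => ?_⟩
  obtain ⟨x, hx⟩ := h t ht
  refine ⟨x, ?_⟩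
  simp only [mem_iInter] at hx ⊢
  intro β hβ ξ hξ
  exact hx β (hGF hβ) ξ hξ

theorem SCA_single {W : Type u} [LinearOrder W] {K : Type u} {e : W → W → ℕ} (he : Enum e)
    {p : W → Set K} (hp : ∀ w, (p w).Nonempty) (w : W) : RC e p {w} := by
  intro i
  refine ⟨fun _ => 0, fun _ _ => Nat.zero_le _, fun t _ => ?_⟩
  by_cases h : ∃ ξ₀, ξ₀ < w ∧ e w ξ₀ = i
  · obtain ⟨ξ₀, h1, h2⟩ := h
    obtain ⟨x, hx⟩ := hp ξ₀
    refine ⟨x, ?_⟩
    simp only [mem_iInter, Finset.mem_singleton]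
    rintro β rfl ξ ⟨h3, h4, _⟩
    have : ξ = ξ₀ := he β ξ ξ₀ h3 h1 (h4.trans h2.symm)
    rw [this]; exact hx
  · obtain ⟨x, _⟩ := hp w
    refine ⟨x, ?_⟩
    simp only [mem_iInter, Finset.mem_singleton]
    rintro β rfl ξ ⟨h3, h4, _⟩
    exact absurd ⟨ξ, h3, h4⟩ h

theorem t_SCA : S_SCA.{u} := by
  intro hEnum hSCC hSCE W _ hOm hHom K _ _ hPrec p hp
  obtain ⟨e, he⟩ := hEnum W hOm
  obtain ⟨I, _, hI, hIR⟩ := hHom (RC e p) (fun F G h hF => SCA_mono e p F G h hF)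
    (fun w => SCA_single he (fun w => (hp w).2) w) (hSCC W hOm e he K hPrec p hp) Set.univ hOm.2
  exact hSCE W hOm e he K p hp I hI hIR

end H970R2.TAM
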