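import Pool.Agent.H970R2.TAM.Defs

/-!
# Task SCC (helper840): the family `RC` is ccc
-/

set_option autoImplicit false

open Set Topology Filter

universe u

namespace H970R2.TAM

namespace SCC_

/-- the open set of colour `t` -/
def O {W : Type u} [LinearOrder W] {K : Type u} (e : W → W → ℕ) (p : W → Set K)
    (c : W → ℕ) (F : Finset W) (i t : ℕ) : Set K :=
  ⋂ β ∈ F, ⋂ ξ, ⋂ (_ : ξ < β ∧ e β ξ = i ∧ c β = t), p ξ

theorem isOpen_O {W : Type u} [LinearOrder W] {K : Type u} [TopologicalSpace K]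
    {e : W → W → ℕ} (he : Enum e) {p : W → Set K} (hp : ∀ w, IsOpen (p w) ∧ (p w).Nonempty)
    (c : W → ℕ) (F : Finset W) (i t : ℕ) : IsOpen (O e p c F i t) := by
  unfold O
  refine isOpen_biInter_finset fun β _ => ?_
  by_cases h : ∃ ξ, ξ < β ∧ e β ξ = i ∧ c β = t
  · obtain ⟨ξ₀, h₀⟩ := h
    have : (⋂ ξ, ⋂ (_ : ξ < β ∧ e β ξ = i ∧ c β = t), p ξ) = p ξ₀ := by
      ext x
      simp only [mem_iInter]
      constructor
      · intro hx
        exact hx ξ₀ h₀
      · intro hx ξ hξ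
        have : ξ = ξ₀ := he β ξ ξ₀ hξ.1 h₀.1 (hξ.2.1.trans h₀.2.1.symm)
        rw [this]
        exact hx
    rw [this]
    exact (hp ξ₀).1
  · have : (⋂ ξ, ⋂ (_ : ξ < β ∧ e β ξ = i ∧ c β = t), p ξ) = univ := by
      ext x
      simp only [mem_iInter, mem_univ, iff_true]
      intro ξ hξ
      exact absurd ⟨ξ, hξ⟩ h
    rw [this]
    exact isOpen_univ

theorem mem_O {W : Type u} [LinearOrder W] {K : Type u} {e : W → W → ℕ} {p : W → Set K}
    {c : W → ℕ} {F : Finset W} {i t : ℕ} {x : K} :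
    x ∈ O e p c F i t ↔ ∀ β ∈ F, ∀ ξ, ξ < β ∧ e β ξ = i ∧ c β = t → x ∈ p ξ := by
  unfold O
  simp only [mem_iInter]

theorem refine_pairs {K : Type u} [TopologicalSpace K] (hK : Prec K) {ι : Type u}
    (V : ι → ℕ → ℕ → Set K) (J : Set ι) (hJ : ¬ J.Countable)
    (hV : ∀ F ∈ J, ∀ i t, t ≤ i → IsOpen (V F i t) ∧ (V F i t).Nonempty) (P : Finset (ℕ × ℕ)) :
    (∀ q ∈ P, q.2 ≤ q.1) → ∃ J' ⊆ J, ¬ J'.Countable ∧
      ∀ q ∈ P, ∀ F ∈ J', ∀ G ∈ J', (V F q.1 q.2 ∩ V G q.1 q.2).Nonempty := by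
  classical
  induction P using Finset.induction_on with
  | empty => exact fun _ => ⟨J, Subset.rfl, hJ, by simp⟩
  | insert q P hq ih =>
    intro hqP
    obtain ⟨J', hJ', hJ'c, hJ'P⟩ := ih fun q' hq' => hqP q' (Finset.mem_insert_of_mem hq')
    obtain ⟨J'', hJ'', hJ''c, hJ''V⟩ := hK ι J' (fun F => V F q.1 q.2) hJ'c
      (fun F hF => hV F (hJ' hF) _ _ (hqP q (Finset.mem_insert_self _ _)))
    refine ⟨J'', hJ''.trans hJ', hJ''c, ?_⟩
    intro q' hq' F hF G hG
    rcases Finset.mem_insert.mp hq' with rfl | hq'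
    · have h := hJ''V {F, G} (by
        intro x hx
        simp only [Finset.coe_insert, Finset.coe_singleton, Set.mem_insert_iff,
          Set.mem_singleton_iff] at hx
        rcases hx with rfl | rfl
        · exact hF
        · exact hG)
      obtain ⟨x, hx⟩ := h
      simp only [mem_iInter] at hx
      exact ⟨x, hx F (by simp), hx G (by simp)⟩
    · exact hJ'P q' hq' F (hJ'' hF) G (hJ'' hG)

theorem exists_card {W : Type u} (J : Set (Finset W)) (hJ : ¬ J.Countable) :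
    ∃ l : ℕ, ¬ {F | F ∈ J ∧ F.card = l}.Countable := by
  by_contra hcon
  push Not at hcon
  apply hJ
  have : J ⊆ ⋃ l : ℕ, {F | F ∈ J ∧ F.card = l} := by
    intro F hF
    rw [mem_iUnion]
    exact ⟨F.card, hF, rfl⟩
  exact (Set.countable_iUnion hcon).mono this

end SCC_

open SCC_ in
theorem t_SCC : S_SCC.{u} := by
  classical
  intro W _ hOm e he K _ hK p hp 𝒥 hR hJ
  -- colourings
  have hc : ∀ F : Finset W, ∀ i : ℕ, ∃ c : W → ℕ, F ∈ 𝒥 → (∀ β ∈ F, c β ≤ i) ∧ ∀ t ≤ i,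
      (O e p c F i t).Nonempty := by
    intro F i
    by_cases hF : F ∈ 𝒥
    · obtain ⟨c, h1, h2⟩ := hR F hF i
      exact ⟨c, fun _ => ⟨h1, h2⟩⟩
    · exact ⟨fun _ => 0, fun h => absurd h hF⟩
  choose c hc using hc
  obtain ⟨l, hl⟩ := exists_card 𝒥 hJ
  obtain ⟨J', hJ', hJ'c, hJ'P⟩ := refine_pairs hK (fun F i t => O e p (c F i) F i t)
    {F | F ∈ 𝒥 ∧ F.card = l} hl
    (fun F hF i t ht => ⟨isOpen_O he hp _ _ _ _, (hc F i hF.1).2 t ht⟩)
    ((Finset.range (2 * l) ×ˢ Finset.range (2 * l)).filter fun q => q.2 ≤ q.1)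
    (fun q hq => (Finset.mem_filter.mp hq).2)
  have hnt : J'.Nontrivial := by
    rw [← Set.not_subsingleton_iff]
    intro h
    exact hJ'c h.countable
  obtain ⟨F, hF, G, hG, hne⟩ := hnt
  obtain ⟨hFJ, hFl⟩ := hJ' hF
  obtain ⟨hGJ, hGl⟩ := hJ' hG
  refine ⟨F, hFJ, G, hGJ, hne, F ∪ G, ?_, Finset.subset_union_left, Finset.subset_union_right⟩
  intro i
  rcases lt_or_ge i (2 * l) with hi | hi
  · refine ⟨fun β => if β ∈ F then c F i β else c G i β, ?_, ?_⟩
    · intro β hβ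
      by_cases h : β ∈ F
      · simp only [h, if_true]
        exact (hc F i hFJ).1 β h
      · simp only [h, if_false]
        refine (hc G i hGJ).1 β ?_
        rcases Finset.mem_union.mp hβ with h' | h'
        · exact absurd h' h
        · exact h'
    · intro t ht
      obtain ⟨x, hx1, hx2⟩ := hJ'P (i, t) (by
        rw [Finset.mem_filter, Finset.mem_product, Finset.mem_range, Finset.mem_range]
        exact ⟨⟨hi, by omega⟩, ht⟩) F hF G hG
      refine ⟨x, ?_⟩
      have hx1' : x ∈ O e p (c F i) F i t := hx1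
      have hx2' : x ∈ O e p (c G i) G i t := hx2
      rw [mem_O] at hx1' hx2'
      change x ∈ O e p (fun β => if β ∈ F then c F i β else c G i β) (F ∪ G) i t
      rw [mem_O]
      rintro β hβ ξ ⟨h1, h2, h3⟩
      by_cases h : β ∈ F
      · simp only [h, if_true] at h3
        exact hx1' β h ξ ⟨h1, h2, h3⟩
      · simp only [h, if_false] at h3
        rcases Finset.mem_union.mp hβ with h' | h'
        · exact absurd h' h
        · exact hx2' β h' ξ ⟨h1, h2, h3⟩
  · have hcard : (F ∪ G).card ≤ i := by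
      have := Finset.card_union_le F G
      omega
    obtain ⟨cc, hcc1, hinj'⟩ : ∃ cc : W → ℕ, (∀ β ∈ F ∪ G, cc β ≤ i) ∧
        ∀ β ∈ F ∪ G, ∀ β' ∈ F ∪ G, cc β = cc β' → β = β' := by
      refine ⟨fun β => if h : β ∈ F ∪ G then ((F ∪ G).equivFin ⟨β, h⟩ : ℕ) else 0, ?_, ?_⟩
      · intro β hβ
        simp only [hβ, dif_pos]
        have := ((F ∪ G).equivFin ⟨β, hβ⟩).2
        omega
      · intro β hβ β' hβ' h
        simp only [hβ, hβ', dif_pos] at h
        have h' := (F ∪ G).equivFin.injective (Fin.ext h)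
        exact congrArg Subtype.val h'
    refine ⟨cc, hcc1, ?_⟩
    · intro t ht
      change (O e p cc (F ∪ G) i t).Nonempty
      by_cases h : ∃ β ∈ F ∪ G, ∃ ξ, ξ < β ∧ e β ξ = i ∧ cc β = t
      · obtain ⟨β₀, hβ₀, ξ₀, h1, h2, h3⟩ := h
        obtain ⟨x, hx⟩ := (hp ξ₀).2
        refine ⟨x, ?_⟩
        rw [mem_O]
        rintro β hβ ξ ⟨g1, g2, g3⟩
        have e1 : β = β₀ := hinj' β hβ β₀ hβ₀ (g3.trans h3.symm)
        subst e1
        have e2 : ξ = ξ₀ := he β ξ ξ₀ g1 h1 (g2.trans h2.symm)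
        rw [e2]
        exact hx
      · have hW : ∃ w : W, True := by
          by_contra hcon
          push Not at hcon
          apply hOm.2
          have : (univ : Set W) = ∅ := by
            ext w
            exact (hcon w).elim
          rw [this]
          exact countable_empty
        obtain ⟨w, -⟩ := hW
        obtain ⟨x, hx⟩ := (hp w).2
        refine ⟨x, ?_⟩
        rw [mem_O]
        intro β hβ ξ hξ
        exact absurd ⟨β, hβ, ξ, hξ⟩ h

end H970R2.TAM
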