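import Pool.Agent.H970R2.TAM.Defs

open Set Topology Filter

universe u

namespace H970R2.TAM

theorem SCE_level {W : Type u} [LinearOrder W] (e : W → W → ℕ) {K : Type u}
    [TopologicalSpace K] [CompactSpace K] [Nonempty K] (p : W → Set K) (I : Set W)
    (hR : ∀ F : Finset W, (↑F : Set W) ⊆ I → RC e p F) (i : ℕ) :
    ∃ (c : W → ℕ) (x : ℕ → K), ∀ β ∈ I, ∀ ξ, ξ < β → e β ξ = i → x (c β) ∈ closure (p ξ) := by
  classical
  have h1 : ∀ F : Finset I, ∃ c : W → ℕ, (∀ β ∈ F.image Subtype.val, c β ≤ i) ∧ ∀ t ≤ i,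
      (⋂ β ∈ F.image Subtype.val, ⋂ ξ, ⋂ (_ : ξ < β ∧ e β ξ = i ∧ c β = t), p ξ).Nonempty :=
    fun F => hR _ (by
      intro w hw
      simp only [Finset.coe_image, Set.mem_image, Finset.mem_coe, Subtype.exists,
        exists_and_right, exists_eq_right] at hw
      exact hw.1) i
  choose cF hc1 hc2 using h1
  set U : Ultrafilter (Finset I) := Ultrafilter.of atTop with hU
  have hUle : (U : Filter (Finset I)) ≤ atTop := Ultrafilter.of_le _
  have hmem : ∀ β : I, ∀ᶠ F in (U : Filter (Finset I)), β ∈ F := by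
    intro β
    apply hUle
    filter_upwards [eventually_ge_atTop ({β} : Finset I)] with F hF
    exact hF (by simp)
  have h2 : ∀ β : I, ∃ t, t ≤ i ∧ ∀ᶠ F in (U : Filter (Finset I)), cF F β = t := by
    intro β
    have h3 : ∀ᶠ F in (U : Filter (Finset I)), ∃ t ∈ Set.Iic i, cF F β = t := by
      filter_upwards [hmem β] with F hF
      exact ⟨_, hc1 F β (by simpa using hF), rfl⟩
    rw [Ultrafilter.eventually_exists_mem_iff (Set.finite_Iic i)] at h3
    obtain ⟨t, ht, h4⟩ := h3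
    exact ⟨t, ht, h4⟩
  choose c hc3 hc4 using h2
  have h5 : ∀ t, t ≤ i → (⋂ q : {q : I × W // q.2 < q.1 ∧ e q.1 q.2 = i ∧ c q.1 = t},
      closure (p q.1.2)).Nonempty := by
    intro t ht
    refine CompactSpace.iInter_nonempty (fun _ => isClosed_closure) ?_
    intro s
    have h6 : ∀ᶠ F in (U : Filter (Finset I)), ∀ q ∈ s, q.1.1 ∈ F ∧ cF F q.1.1 = c q.1.1 := by
      rw [Filter.eventually_all_finset]
      intro q _
      exact (hmem q.1.1).and (hc4 q.1.1)
    obtain ⟨F, hF⟩ := h6.exists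
    obtain ⟨x, hx⟩ := hc2 F t ht
    refine ⟨x, ?_⟩
    simp only [Set.mem_iInter] at hx ⊢
    intro q hq
    obtain ⟨hq1, hq2⟩ := hF q hq
    exact subset_closure (hx q.1.1 (by simpa using hq1) q.1.2 ⟨q.2.1, q.2.2.1, by
      rw [hq2]; exact q.2.2.2⟩)
  have h7 : ∀ t, ∃ x : K, t ≤ i → ∀ (β : I) (ξ : W), ξ < β → e β ξ = i → c β = t →
      x ∈ closure (p ξ) := by
    intro t
    by_cases ht : t ≤ i
    · obtain ⟨x, hx⟩ := h5 t ht
      refine ⟨x, fun _ β ξ h1 h2 h3 => ?_⟩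
      simp only [Set.mem_iInter] at hx
      exact hx ⟨(β, ξ), h1, h2, h3⟩
    · exact ⟨Classical.arbitrary K, fun h => absurd h ht⟩
  choose x hx using h7
  refine ⟨fun β => if h : β ∈ I then c ⟨β, h⟩ else 0, x, ?_⟩
  intro β hβ ξ h1 h2
  simp only [hβ, dif_pos]
  exact hx _ (hc3 ⟨β, hβ⟩) ⟨β, hβ⟩ ξ h1 h2 rfl

theorem t_SCE : S_SCE.{u} := by
  intro W _ hOm e _ K _ _ p hp I hI hR
  have hW : Nonempty W := by
    by_contra h
    rw [not_nonempty_iff] at h
    exact hI (Set.to_countable I)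
  have hK : Nonempty K := by
    obtain ⟨w⟩ := hW
    obtain ⟨x, _⟩ := (hp w).2
    exact ⟨x⟩
  choose c x hx using fun i => SCE_level e p I hR i
  refine ⟨fun k => x (Nat.unpair k).1 (Nat.unpair k).2, fun w => ?_⟩
  obtain ⟨β, hβ, hwβ⟩ : ∃ β ∈ I, w < β := by
    by_contra h
    push Not at h
    apply hI
    have : I ⊆ insert w (Set.Iio w) := by
      intro β hβ
      rcases (h β hβ).eq_or_lt with h | h
      · exact Or.inl h
      · exact Or.inr h
    exact ((hOm.1 w).insert w).mono this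
  refine ⟨Nat.pair (e β w) (c (e β w) β), ?_⟩
  simp only [Nat.unpair_pair]
  exact hx _ β hβ w hwβ rfl

end H970R2.TAM
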