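import Pool.Agent.H970R2.TAM.Defs

/-! TOP: topological assembly -/

open Set Topology Filter

universe u

namespace H970R2.TAM

/-- a well-ordered set that looks like the first uncountable ordinal -/
theorem TOP_W : ∃ (W : Type u) (_ : LinearOrder W), WellFoundedLT W ∧ Om W ∧
    Cardinal.mk W = Cardinal.aleph 1 := by
  refine ⟨(Cardinal.aleph.{u} 1).ord.ToType, inferInstance, inferInstance, ⟨fun w => ?_, ?_⟩, ?_⟩
  · rw [Cardinal.countable_iff_lt_aleph_one]
    have := Cardinal.mk_Iio_lt w (by simp)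
    simpa using this
  · rw [Cardinal.countable_iff_lt_aleph_one]
    simp
  · simp

/-- a surjection from `W` onto a set of cardinality at most the cardinality of `W` -/
theorem TOP_surj {W Y : Type u} (S : Set Y) (hne : S.Nonempty)
    (h : Cardinal.mk S ≤ Cardinal.mk W) : ∃ ψ : W → Y, (∀ w, ψ w ∈ S) ∧ ∀ y ∈ S, ∃ w, ψ w = y := by
  obtain ⟨e⟩ := h
  have : Nonempty S := hne.to_subtype
  have hs := Function.invFun_surjective e.injective
  refine ⟨fun w => (Function.invFun e w : S).1, fun w => (Function.invFun e w).2, fun y hy => ?_⟩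
  obtain ⟨w, hw⟩ := hs ⟨y, hy⟩
  exact ⟨w, congrArg Subtype.val hw⟩

/-- cardinality of the union -/
theorem TOP_card {W X : Type u} (hW : Cardinal.mk W = Cardinal.aleph 1) (Zs : W → Set X)
    (hZ : ∀ w, (Zs w).Countable) :
    Cardinal.mk {q : X × ℕ | q.1 ∈ ⋃ w, Zs w} ≤ Cardinal.mk W := by
  have h1 : {q : X × ℕ | q.1 ∈ ⋃ w, Zs w} = ⋃ w, (Zs w ×ˢ (univ : Set ℕ)) := by
    ext q
    simp
  rw [h1]
  refine (Cardinal.mk_iUnion_le _).trans ?_
  have h2 : (⨆ w, Cardinal.mk (Zs w ×ˢ (univ : Set ℕ) : Set (X × ℕ))) ≤ Cardinal.aleph0 := by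
    refine ciSup_le' fun w => ?_
    exact Cardinal.mk_le_aleph0_iff.2 ((hZ w).prod countable_univ).to_subtype
  have h3 : Cardinal.aleph0 ≤ Cardinal.mk W := by
    rw [hW]
    exact Cardinal.aleph0_le_aleph 1
  calc Cardinal.mk W * (⨆ w, Cardinal.mk (Zs w ×ˢ (univ : Set ℕ) : Set (X × ℕ)))
      ≤ Cardinal.mk W * Cardinal.mk W := mul_le_mul_right (h2.trans h3) _
    _ = Cardinal.mk W := Cardinal.mul_eq_self h3

theorem t_TOP : S_TOP.{u} := by
  intro hAT hNB hCHAIN hCK hIS hFC X _ _ _ hG hcc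
  by_contra hsep
  obtain ⟨W, instW, instWF, hOm, hWc⟩ := TOP_W.{u}
  have hcont : Continuous (stoneCechUnit : X → StoneCech X) := continuous_stoneCechUnit
  have hdense : DenseRange (stoneCechUnit : X → StoneCech X) := denseRange_stoneCechUnit
  have hind : IsInducing (stoneCechUnit : X → StoneCech X) := isInducing_stoneCechUnit
  have hinj : Function.Injective (stoneCechUnit : X → StoneCech X) := hind.injective
  obtain ⟨U, hU1, hU2⟩ := hNB X
  -- decreasing open sets
  obtain ⟨f, hf1, hf2⟩ := isGδ_iff_eq_iInter_nat.1 hG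
  let O : ℕ → Set (StoneCech X) := fun n => ⋂ m ∈ Finset.range (n + 1), f m
  have hO1 : ∀ n, IsOpen (O n) := fun n => isOpen_biInter_finset fun m _ => hf1 m
  have hO2 : Antitone O := by
    intro a b hab x hx
    simp only [O, mem_iInter, Finset.mem_range] at hx ⊢
    exact fun m hm => hx m (by omega)
  have hO3 : (⋂ n, O n) = range (stoneCechUnit : X → StoneCech X) := by
    rw [hf2]
    ext x
    simp only [O, mem_iInter, Finset.mem_range]
    exact ⟨fun h m => h m m (by omega), fun h n m _ => h m⟩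
  have hO4 : ∀ n x, stoneCechUnit x ∈ O n := by
    intro n x
    have : stoneCechUnit x ∈ ⋂ n, O n := by
      rw [hO3]
      exact mem_range_self x
    exact mem_iInter.1 this n
  -- `X` is nonempty
  have hXne : Nonempty X := by
    by_contra hem
    rw [not_nonempty_iff] at hem
    exact hsep inferInstance
  obtain ⟨x0⟩ := hXne
  classical
  let φ : Finset (X × ℕ) → X := fun F =>
    if h : ∃ x : X, stoneCechUnit x ∈ ⋂ q ∈ F, U q.1 q.2 then h.choose else x0
  have hφ : ∀ F : Finset (X × ℕ), (⋂ q ∈ F, U q.1 q.2).Nonempty →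
      stoneCechUnit (φ F) ∈ ⋂ q ∈ F, U q.1 q.2 := by
    intro F hF
    have hop : IsOpen (⋂ q ∈ F, U q.1 q.2) := isOpen_biInter_finset fun q _ => (hU1 q.1 q.2).1
    obtain ⟨x, hx⟩ := hdense.exists_mem_open hop hF
    have hex : ∃ x : X, stoneCechUnit x ∈ ⋂ q ∈ F, U q.1 q.2 := ⟨x, hx⟩
    have : φ F = hex.choose := dif_pos hex
    rw [this]
    exact hex.choose_spec
  obtain ⟨Zs, hZ1, hZ2, hZ3, hZ4⟩ := hCHAIN X hsep W hOm φ
  set Z : Set X := ⋃ w, Zs w with hZdef
  have hWne : Nonempty W := by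
    by_contra hem
    rw [not_nonempty_iff] at hem
    exact hOm.2 (to_countable _)
  obtain ⟨w0⟩ := hWne
  obtain ⟨z0, hz0, _⟩ := hZ4 w0
  -- the compact space
  have hK : CompactSpace (closure ((stoneCechUnit : X → StoneCech X) '' Z)) :=
    isCompact_iff_compactSpace.1 isClosed_closure.isCompact
  have hKcc : CountableCellularity (closure ((stoneCechUnit : X → StoneCech X) '' Z)) :=
    hCK X (StoneCech X) stoneCechUnit hcont hdense hcc U hU1 hU2 Z
      fun F hF hne => ⟨φ F, hZ3 F hF, hφ F hne⟩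
  obtain ⟨ψ, hψ1, hψ2⟩ := TOP_surj (W := W) {q : X × ℕ | q.1 ∈ ⋃ w, Zs w} ⟨(z0, 0), hz0⟩
    (TOP_card hWc Zs hZ1)
  have hIst := hIS X (StoneCech X) stoneCechUnit U hU1 hU2 O hO1 hO4 Z W ψ
    (fun z hz n => hψ2 (z, n) hz) hψ1 ⟨w0⟩
  obtain ⟨D', hD1, hD2, hD3⟩ := hAT W hOm (closure ((stoneCechUnit : X → StoneCech X) '' Z)) hKcc
    _ _ (fun w => ⟨(hU1 _ _).1.preimage continuous_subtype_val,
      ⟨⟨stoneCechUnit (ψ w).1, subset_closure (mem_image_of_mem _ (hψ1 w))⟩, (hU1 _ _).2⟩⟩)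
    (fun a b hab => preimage_mono (hO2 hab)) hIst
  refine hFC X (StoneCech X) stoneCechUnit hind hinj U hU1 hU2 W hOm Zs hZ1 hZ2 hZ4
    (Subtype.val '' D') (hD1.image _) ?_ ?_ ?_
  · rintro _ ⟨d, hd, rfl⟩
    rw [← hO3]
    have := hD2 hd
    simp only [mem_iInter, mem_preimage] at this ⊢
    exact this
  · rintro _ ⟨d, hd, rfl⟩
    exact d.2
  · intro z hz n
    obtain ⟨w, hw⟩ := hψ2 (z, n) hz
    obtain ⟨d, hd, hd'⟩ := hD3 w
    refine ⟨d.1, mem_image_of_mem _ hd, ?_⟩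
    have : (d : StoneCech X) ∈ U (ψ w).1 (ψ w).2 := hd'
    rw [hw] at this
    exact this

end H970R2.TAM
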