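import Pool.Agent.H970R2.TAM.Defs

/-! W2C: the family of width two is ccc. -/

open Set Topology Filter

universe u

namespace H970R2.TAM

theorem W2C_fibre {α : Type u} {β : Type*} [Countable β] (J : Set α) (hJ : ¬ J.Countable)
    (Φ : α → β) : ∃ v, ¬ {x | x ∈ J ∧ Φ x = v}.Countable := by
  by_contra hcon
  push Not at hcon
  apply hJ
  refine (Set.countable_iUnion hcon).mono ?_
  intro x hx
  exact Set.mem_iUnion.2 ⟨Φ x, hx, rfl⟩

theorem t_W2C : S_W2C.{u} := by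
  classical
  intro hDS W _ hOm e hE A g hg hN 𝒥 hR2 hJ
  choose N hN using hN
  -- bound for `N`
  obtain ⟨k, hk⟩ := W2C_fibre 𝒥 hJ N
  obtain ⟨J', D, hJ'sub, hJ'c, hDsub, hDint⟩ := hDS W (Finset W) id {F | F ∈ 𝒥 ∧ N F = k} hk
  -- the colourings
  have hch : ∀ F : Finset W, ∃ c : ℕ → W → Finset ℕ, F ∈ 𝒥 → ∀ n,
      (∀ β ∈ F, (c n β).card ≤ 2 ∧ (∀ y ∈ c n β, g n ≤ y ∧ y < g (n + 1)) ∧
        ∃ y ∈ c n β, y ∈ Blk A e g β n) ∧
      ∀ α ∈ F, ∀ β ∈ F, α < β → e β α ≤ n → c n α = c n β := by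
    intro F
    by_cases hF : F ∈ 𝒥
    · choose c hc using hR2 F hF
      exact ⟨c, fun _ => hc⟩
    · exact ⟨fun _ _ => ∅, fun h => absurd h hF⟩
  choose c hc using hch
  obtain ⟨v, hv⟩ := W2C_fibre J' hJ'c
    (fun F => (fun (n : Fin k) (d : {x // x ∈ D}) => c F n d.1))
  set J2 : Set (Finset W) := {x | x ∈ J' ∧
    (fun (n : Fin k) (d : {x // x ∈ D}) => c x n d.1) = v} with hJ2
  have hJ2J' : ∀ F ∈ J2, F ∈ J' := fun F hF => hF.1
  have hJ2J : ∀ F ∈ J2, F ∈ 𝒥 ∧ N F = k := fun F hF => hJ'sub hF.1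
  have hint : ∀ F ∈ J2, ∀ G ∈ J2, F ≠ G → ∀ t ∈ F, t ∈ G → t ∈ D :=
    fun F hF G hG hne t h1 h2 => hDint F hF.1 G hG.1 hne t h1 h2
  have hsame : ∀ F ∈ J2, ∀ G ∈ J2, ∀ n < k, ∀ d ∈ D, c F n d = c G n d := by
    intro F hF G hG n hn d hd
    have h1 := hF.2.trans hG.2.symm
    exact congrFun (congrFun h1 ⟨n, hn⟩) ⟨d, hd⟩
  -- a sequence in `J2`
  have hinf : J2.Infinite := fun h => hv h.countable
  set f : ℕ → Finset W := fun i => (hinf.natEmbedding J2 i : Finset W) with hf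
  have hfJ : ∀ i, f i ∈ J2 := fun i => (hinf.natEmbedding J2 i).2
  have hfinj : Function.Injective f := fun i j h => (hinf.natEmbedding J2).injective
    (Subtype.ext h)
  -- the countable set `L`
  set L : Set W := {x | ∃ i, ∃ y ∈ f i, x ≤ y} with hL
  have hLc : L.Countable := by
    have h1 : (⋃ i : ℕ, ⋃ y ∈ (↑(f i) : Set W), Set.Iic y).Countable := by
      refine Set.countable_iUnion (fun i => ?_)
      refine (f i).countable_toSet.biUnion (fun y _ => ?_)
      rw [← Set.Iio_insert]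
      exact (hOm.1 y).insert y
    refine h1.mono ?_
    rintro x ⟨i, y, hy, hxy⟩
    exact Set.mem_iUnion.2 ⟨i, Set.mem_biUnion (Finset.mem_coe.2 hy) hxy⟩
  have hbad : {G | G ∈ J2 ∧ ∃ x ∈ G, x ∉ D ∧ x ∈ L}.Countable := by
    have h1 : (⋃ x ∈ L, {G | G ∈ J2 ∧ x ∈ G ∧ x ∉ D}).Countable := by
      refine hLc.biUnion (fun x _ => Set.Subsingleton.countable ?_)
      rintro G ⟨hG, hxG, hxD⟩ G' ⟨hG', hxG', -⟩
      by_contra hne
      exact hxD (hint G hG G' hG' hne x hxG hxG')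
    refine h1.mono ?_
    rintro G ⟨hG, x, hxG, hxD, hxL⟩
    exact Set.mem_biUnion hxL ⟨hG, hxG, hxD⟩
  obtain ⟨G, hGJ, hGbad⟩ : ∃ G ∈ J2, G ∉ {G | G ∈ J2 ∧ ∃ x ∈ G, x ∉ D ∧ x ∈ L} ∪ range f := by
    by_contra hcon
    push Not at hcon
    exact hv ((hbad.union (Set.countable_range f)).mono hcon)
  have hGL : ∀ x ∈ G, x ∉ D → x ∉ L := by
    intro x hx hxD hxL
    exact hGbad (Or.inl ⟨hGJ, x, hx, hxD, hxL⟩)
  have hGf : ∀ i, f i ≠ G := fun i h => hGbad (Or.inr ⟨i, h⟩)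
  -- the finite set `E`
  set E : Set W := {ξ | ∃ β ∈ G, β ∉ D ∧ ξ < β ∧ e β ξ < k} with hEdef
  have hEfin : E.Finite := by
    have h1 : (⋃ β ∈ (↑G : Set W), {ξ | ξ < β ∧ e β ξ < k}).Finite := by
      refine G.finite_toSet.biUnion (fun β _ => ?_)
      refine Set.Finite.of_finite_image (f := e β) ((Set.finite_Iio k).subset ?_) ?_
      · rintro _ ⟨ξ, hξ, rfl⟩
        exact hξ.2
      · intro ξ hξ ξ' hξ' heq
        exact hE β ξ ξ' hξ.1 hξ'.1 heq
    refine h1.subset ?_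
    rintro ξ ⟨β, hβ, -, h2, h3⟩
    exact Set.mem_biUnion (Finset.mem_coe.2 hβ) ⟨h2, h3⟩
  obtain ⟨i, hi⟩ : ∃ i, ∀ x ∈ f i, x ∉ D → x ∉ E := by
    by_contra hcon
    push Not at hcon
    choose x hx1 hx2 hx3 using hcon
    have hxinj : Function.Injective x := by
      intro a b hab
      by_contra hne
      exact hx2 a (hint (f a) (hfJ a) (f b) (hfJ b) (fun h => hne (hfinj h)) (x a) (hx1 a)
        (hab ▸ hx1 b))
    exact Set.infinite_of_injective_forall_mem hxinj hx3 hEfin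
  have hFG : f i ≠ G := hGf i
  have hFJ := hfJ i
  set F := f i with hFdef
  refine ⟨F, (hJ2J F hFJ).1, G, (hJ2J G hGJ).1, hFG, F ∪ G, ?_, Finset.subset_union_left,
    Finset.subset_union_right⟩
  have hDF : ∀ x ∈ D, x ∈ F := fun x hx => hDsub F hFJ.1 hx
  have hDG : ∀ x ∈ D, x ∈ G := fun x hx => hDsub G hGJ.1 hx
  have hFlt : ∀ β ∈ G, β ∉ D → ∀ y ∈ F, y < β := by
    intro β hβ hβD y hy
    by_contra hcon
    exact hGL β hβ hβD ⟨i, y, hy, not_lt.1 hcon⟩
  intro n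
  have hcF := hc F (hJ2J F hFJ).1 n
  have hcG := hc G (hJ2J G hGJ).1 n
  by_cases hn : n < k
  · have hGc : ∀ x ∈ G, (if x ∈ F then c F n x else c G n x) = c G n x := by
      intro x hx
      by_cases hxF : x ∈ F
      · rw [if_pos hxF]
        exact hsame F hFJ G hGJ n hn x (hint F hFJ G hGJ hFG x hxF hx)
      · rw [if_neg hxF]
    refine ⟨fun x => if x ∈ F then c F n x else c G n x, ?_, ?_⟩
    · intro β hβ
      rcases Finset.mem_union.1 hβ with h | h
      · simp only [if_pos h]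
        exact hcF.1 β h
      · simp only [hGc β h]
        exact hcG.1 β h
    · intro α hα β hβ hlt hle
      show (if α ∈ F then c F n α else c G n α) = (if β ∈ F then c F n β else c G n β)
      by_cases hαF : α ∈ F
      · by_cases hβF : β ∈ F
        · rw [if_pos hαF, if_pos hβF]
          exact hcF.2 α hαF β hβF hlt hle
        · have hβG : β ∈ G := (Finset.mem_union.1 hβ).resolve_left hβF
          by_cases hαG : α ∈ G
          · rw [hGc α hαG, hGc β hβG]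
            exact hcG.2 α hαG β hβG hlt hle
          · exfalso
            have hαD : α ∉ D := fun h => hαG (hDG α h)
            have hβD : β ∉ D := fun h => hβF (hDF β h)
            exact hi α hαF hαD ⟨β, hβG, hβD, hlt, lt_of_le_of_lt hle hn⟩
      · have hαG : α ∈ G := (Finset.mem_union.1 hα).resolve_left hαF
        by_cases hβG : β ∈ G
        · rw [hGc α hαG, hGc β hβG]
          exact hcG.2 α hαG β hβG hlt hle
        · exfalso
          have hβF : β ∈ F := (Finset.mem_union.1 hβ).resolve_right hβG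
          have hαD : α ∉ D := fun h => hαF (hDF α h)
          exact absurd hlt (not_lt.2 (hFlt α hαG hαD β hβF).le)
  · have hkn : k ≤ n := not_lt.1 hn
    obtain ⟨yF, hyF1, hyF2, hyF3⟩ := hN F n (by rw [(hJ2J F hFJ).2]; exact hkn)
    obtain ⟨yG, hyG1, hyG2, hyG3⟩ := hN G n (by rw [(hJ2J G hGJ).2]; exact hkn)
    refine ⟨fun _ => {yF, yG}, ?_, fun _ _ _ _ _ _ => rfl⟩
    intro β hβ
    refine ⟨Finset.card_le_two, ?_, ?_⟩
    · intro y hy
      rcases Finset.mem_insert.1 hy with rfl | hy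
      · exact ⟨hyF1, hyF2⟩
      · rw [Finset.mem_singleton.1 hy]
        exact ⟨hyG1, hyG2⟩
    · rcases Finset.mem_union.1 hβ with h | h
      · exact ⟨yF, Finset.mem_insert_self _ _, hyF1, hyF2, fun _ => hyF3 β h⟩
      · exact ⟨yG, Finset.mem_insert_of_mem (Finset.mem_singleton_self _), hyG1, hyG2,
          fun _ => hyG3 β h⟩

end H970R2.TAM
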