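import Pool.Agent.H970R2.TAM.Defs

/-! Task W2E: from an uncountable homogeneous set to a hitting sequence of width two. -/

open Set Topology Filter

universe u

namespace H970R2.TAM

namespace W2E

variable {W : Type u} [LinearOrder W]

/-- `c` is good for `F` at the level `n` -/
def P (A : W → Set ℕ) (e : W → W → ℕ) (g : ℕ → ℕ) (n : ℕ) (c : W → Finset ℕ) (F : Finset W) :
    Prop :=
  (∀ β ∈ F, (c β).card ≤ 2 ∧ (∀ y ∈ c β, g n ≤ y ∧ y < g (n + 1)) ∧ ∃ y ∈ c β, y ∈ Blk A e g β n) ∧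
    ∀ α ∈ F, ∀ β ∈ F, α < β → e β α ≤ n → c α = c β

theorem P_mono {A : W → Set ℕ} {e : W → W → ℕ} {g : ℕ → ℕ} {n : ℕ} {c : W → Finset ℕ}
    {F G : Finset W} (h : P A e g n c F) (hG : G ⊆ F) : P A e g n c G :=
  ⟨fun β hβ => h.1 β (hG hβ), fun α hα β hβ => h.2 α (hG hα) β (hG hβ)⟩

theorem exists_above (hOm : Om W) {I : Set W} (hI : ¬ I.Countable) (H : Finset W) :
    ∃ β ∈ I, ∀ h ∈ H, h < β := by
  by_contra hcon
  push Not at hcon
  apply hI
  have h1 : I ⊆ ⋃ h ∈ H, Set.Iic h := by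
    intro β hβ
    obtain ⟨h, hh, hle⟩ := hcon β hβ
    exact mem_biUnion hh hle
  refine Set.Countable.mono h1 ?_
  refine Set.Countable.biUnion H.countable_toSet fun h _ => ?_
  rw [← Set.Iio_insert]
  exact (hOm.1 h).insert h

end W2E

open W2E in
theorem t_W2E : S_W2E.{u} := by
  classical
  intro W _ hOm e _ A g _ hg I hI hR
  obtain ⟨a0, ha0, -⟩ := exists_above hOm hI ∅
  have hclaim : ∀ n : ℕ, ∃ v : Finset ℕ, ∀ F : Finset W, (↑F : Set W) ⊆ I → a0 ∈ F →
      ∃ c : W → Finset ℕ, P A e g n c F ∧ c a0 = v := by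
    intro n
    by_contra hcon
    push Not at hcon
    choose Fv hFI hFa hFn using hcon
    set G : Finset W := insert a0 ((Finset.Ico (g n) (g (n + 1))).powerset.biUnion Fv) with hG
    have hGI : (↑G : Set W) ⊆ I := by
      intro x hx
      rw [Finset.mem_coe, hG, Finset.mem_insert, Finset.mem_biUnion] at hx
      rcases hx with rfl | ⟨v, -, hv⟩
      · exact ha0
      · exact hFI v hv
    obtain ⟨c, hc⟩ := hR G hGI n
    have hcP : P A e g n c G := hc
    have ha0G : a0 ∈ G := Finset.mem_insert_self _ _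
    have hvm : c a0 ∈ (Finset.Ico (g n) (g (n + 1))).powerset := by
      rw [Finset.mem_powerset]
      intro y hy
      rw [Finset.mem_Ico]
      exact (hcP.1 a0 ha0G).2.1 y hy
    have hsub : Fv (c a0) ⊆ G := by
      intro x hx
      rw [hG, Finset.mem_insert, Finset.mem_biUnion]
      exact Or.inr ⟨c a0, hvm, hx⟩
    exact hFn (c a0) c (P_mono hcP hsub) rfl
  choose cs hcs using hclaim
  refine ⟨cs, ?_, ?_⟩
  · intro n
    obtain ⟨c, hc, hca⟩ := hcs n {a0} (by simpa using ha0) (Finset.mem_singleton_self _)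
    have h := hc.1 a0 (Finset.mem_singleton_self _)
    rw [hca] at h
    exact ⟨h.1, h.2.1⟩
  · intro H
    obtain ⟨β, hβI, hβ⟩ := exists_above hOm hI (insert a0 H)
    obtain ⟨N0, hN0⟩ := hg {β}
    refine ⟨max N0 ((insert a0 H).sup (e β)), fun n hn => ?_⟩
    have hn0 : N0 ≤ n := (le_max_left _ _).trans hn
    have hne : ∀ h ∈ insert a0 H, e β h ≤ n := fun h hh =>
      (Finset.le_sup (f := e β) hh).trans ((le_max_right _ _).trans hn)
    have ha0β : a0 < β := hβ a0 (Finset.mem_insert_self _ _)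
    obtain ⟨c, hc, hca⟩ := hcs n {a0, β} (by
      intro x hx
      rw [Finset.mem_coe, Finset.mem_insert, Finset.mem_singleton] at hx
      rcases hx with rfl | rfl
      · exact ha0
      · exact hβI) (Finset.mem_insert_self _ _)
    have hβm : β ∈ ({a0, β} : Finset W) := by simp
    have hcc := hc.2 a0 (Finset.mem_insert_self _ _) β hβm ha0β
      (hne a0 (Finset.mem_insert_self _ _))
    obtain ⟨y, hy, hyB⟩ := (hc.1 β hβm).2.2
    refine ⟨y, ?_, ?_⟩
    · rw [← hca, hcc]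
      exact hy
    · intro ξ hξ
      obtain ⟨z, hz1, hz2, hz3⟩ := hN0 n hn0
      have h1 := hyB.2.2 ⟨z, hz1, hz2, fun ξ' h1 h2 => hz3 β (Finset.mem_singleton_self _) ξ' h1 h2⟩
      exact h1 ξ (hβ ξ (Finset.mem_insert_of_mem hξ)) (hne ξ (Finset.mem_insert_of_mem hξ))

end H970R2.TAM
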